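import Pool.Agent.H108.St.Taylor

/-!
# Integral points on curves: three points in one residue class are collinear
-/

set_option autoImplicit false
open Finset Polynomial

namespace Pool.Agent.H108.St2

open Pool.Agent.H108.St

/-- The derivative in the first variable. -/
def dx {a b : ℕ} (f : Fin (a + 1) × Fin (b + 1) → ℤ) (x y : ℤ) : ℤ :=
  ∑ e, f e * ((e.1 : ℕ) * x ^ ((e.1 : ℕ) - 1)) * y ^ (e.2 : ℕ)

/-- The derivative in the second variable. -/
def dy {a b : ℕ} (f : Fin (a + 1) × Fin (b + 1) → ℤ) (x y : ℤ) : ℤ :=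
  ∑ e, f e * x ^ (e.1 : ℕ) * ((e.2 : ℕ) * y ^ ((e.2 : ℕ) - 1))

theorem taylor_one {a b : ℕ} (f : Fin (a + 1) × Fin (b + 1) → ℤ) (x y p u v : ℤ) :
    p ^ 2 ∣ val f (x + p * u) (y + p * v) - (val f x y + p * (dx f x y * u + dy f x y * v)) := by
  have e : val f (x + p * u) (y + p * v) - (val f x y + p * (dx f x y * u + dy f x y * v)) =
      ∑ e, (f e * (x + p * u) ^ (e.1 : ℕ) * (y + p * v) ^ (e.2 : ℕ) - (f e * x ^ (e.1 : ℕ) *
        y ^ (e.2 : ℕ) + p * (f e * ((e.1 : ℕ) * x ^ ((e.1 : ℕ) - 1)) * y ^ (e.2 : ℕ) * u +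
          f e * x ^ (e.1 : ℕ) * ((e.2 : ℕ) * y ^ ((e.2 : ℕ) - 1)) * v))) := by
    unfold St.val dx dy
    rw [Finset.sum_sub_distrib, Finset.sum_add_distrib, ← Finset.mul_sum, Finset.sum_add_distrib,
      Finset.sum_mul, Finset.sum_mul]
  rw [e]
  apply Finset.dvd_sum
  intro e _
  obtain ⟨k1, hk1⟩ := Polynomial.powAddExpansion x (p * u) (e.1 : ℕ)
  obtain ⟨k2, hk2⟩ := Polynomial.powAddExpansion y (p * v) (e.2 : ℕ)
  rw [hk1, hk2]
  generalize (x ^ (e.1 : ℕ)) = A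
  generalize (x ^ ((e.1 : ℕ) - 1)) = A'
  generalize (y ^ (e.2 : ℕ)) = B
  generalize (y ^ ((e.2 : ℕ) - 1)) = B'
  generalize (((e.1 : ℕ)) : ℤ) = m
  generalize (((e.2 : ℕ)) : ℤ) = n
  refine ⟨f e * (A * (k2 * v ^ 2) + m * A' * u * (n * B' * v) + m * A' * u * (k2 * p * v ^ 2) +
    k1 * u ^ 2 * (B + n * B' * (p * v) + k2 * (p * v) ^ 2)), ?_⟩
  ring

theorem det_dvd {a b : ℕ} (f : Fin (a + 1) × Fin (b + 1) → ℤ) (p : ℕ) (hp : p.Prime)
    (x1 y1 x2 y2 x3 y3 : ℤ) (h1 : val f x1 y1 = 0) (h2 : val f x2 y2 = 0) (h3 : val f x3 y3 = 0)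
    (hx2 : (p : ℤ) ∣ x2 - x1) (hy2 : (p : ℤ) ∣ y2 - y1) (hx3 : (p : ℤ) ∣ x3 - x1)
    (hy3 : (p : ℤ) ∣ y3 - y1) (hd : ¬ (p : ℤ) ∣ dy f x1 y1) :
    (p : ℤ) ^ 3 ∣ (x2 - x1) * (y3 - y1) - (x3 - x1) * (y2 - y1) := by
  obtain ⟨u2, hu2⟩ := hx2
  obtain ⟨v2, hv2⟩ := hy2
  obtain ⟨u3, hu3⟩ := hx3
  obtain ⟨v3, hv3⟩ := hy3
  have hp0 : (p : ℤ) ≠ 0 := by exact_mod_cast hp.ne_zero
  have key : ∀ x y u v : ℤ, val f x y = 0 → x - x1 = p * u → y - y1 = p * v →
      (p : ℤ) ∣ dx f x1 y1 * u + dy f x1 y1 * v := by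
    intro x y u v h hx hy
    have t := taylor_one f x1 y1 p u v
    rw [show x1 + p * u = x by linarith, show y1 + p * v = y by linarith, h, h1, zero_add,
      zero_sub, dvd_neg, pow_two] at t
    exact (mul_dvd_mul_iff_left hp0).1 t
  have k2 := key x2 y2 u2 v2 h2 hu2 hv2
  have k3 := key x3 y3 u3 v3 h3 hu3 hv3
  have k4 : (p : ℤ) ∣ dy f x1 y1 * (u2 * v3 - u3 * v2) := by
    have e : dy f x1 y1 * (u2 * v3 - u3 * v2) = u2 * (dx f x1 y1 * u3 + dy f x1 y1 * v3) -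
        u3 * (dx f x1 y1 * u2 + dy f x1 y1 * v2) := by ring
    rw [e]
    exact dvd_sub (k3.mul_left _) (k2.mul_left _)
  have k5 : (p : ℤ) ∣ u2 * v3 - u3 * v2 :=
    ((Nat.prime_iff_prime_int.1 hp).dvd_or_dvd k4).resolve_left hd
  rw [hu2, hv2, hu3, hv3, show (p : ℤ) * u2 * (p * v3) - p * u3 * (p * v2) =
    p ^ 2 * (u2 * v3 - u3 * v2) by ring, show (p : ℤ) ^ 3 = p ^ 2 * p by ring]
  exact mul_dvd_mul_left _ k5

/-- Many points in one residue class. -/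
theorem exists_class {a b : ℕ} (f : Fin (a + 1) × Fin (b + 1) → ℤ) (p : ℕ) (hp : p.Prime)
    (i : ℕ → ℕ) (S : Finset ℕ) (n : ℕ) (hS : p * b * n < S.card)
    (h0 : ∀ l ∈ S, val f l (i l) = 0) (h1 : ∀ l ∈ S, ¬ (p : ℤ) ∣ dy f l (i l)) :
    ∃ S' ⊆ S, n < S'.card ∧ ∀ l ∈ S', ∀ m ∈ S', (p : ℤ) ∣ (l : ℤ) - m ∧
      (p : ℤ) ∣ (i l : ℤ) - i m := by
  classical
  have : Fact p.Prime := ⟨hp⟩
  let q : ZMod p → (ZMod p)[X] := fun c => ∑ e : Fin (a + 1) × Fin (b + 1),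
    C ((f e : ZMod p) * c ^ (e.1 : ℕ)) * X ^ (e.2 : ℕ)
  have hq : ∀ c, (q c).natDegree ≤ b := by
    intro c
    apply natDegree_sum_le_of_forall_le
    intro e _
    refine (natDegree_C_mul_X_pow_le _ _).trans (Nat.lt_succ_iff.1 e.2.2)
  have hev : ∀ l : ℕ, (q l).eval (i l : ZMod p) = ((val f l (i l) : ℤ) : ZMod p) := by
    intro l
    simp only [q, St.val, eval_finsetSum, eval_mul, eval_C, eval_pow, eval_X]
    push_cast
    rfl
  have hdev : ∀ l : ℕ, (derivative (q l)).eval (i l : ZMod p) = ((dy f l (i l) : ℤ) : ZMod p) := by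
    intro l
    simp only [q, dy, derivative_sum, derivative_C_mul, derivative_X_pow, eval_finsetSum, eval_mul,
      eval_C, eval_pow, eval_X]
    push_cast
    apply Finset.sum_congr rfl
    intro e _
    ring
  let t : Finset (ZMod p × ZMod p) := univ.biUnion fun c => (q c).roots.toFinset.image fun y => (c, y)
  have ht : t.card ≤ p * b := by
    refine card_biUnion_le.trans ?_
    calc ∑ c : ZMod p, ((q c).roots.toFinset.image fun y => (c, y)).card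
        ≤ ∑ _c : ZMod p, b := by
          apply Finset.sum_le_sum
          intro c _
          exact card_image_le.trans ((Multiset.toFinset_card_le _).trans
            ((card_roots' _).trans (hq c)))
      _ = p * b := by rw [sum_const, card_univ, ZMod.card, smul_eq_mul]
  have hmap : ∀ l ∈ S, ((l : ZMod p), (i l : ZMod p)) ∈ t := by
    intro l hl
    rw [mem_biUnion]
    refine ⟨(l : ZMod p), mem_univ _, ?_⟩
    rw [mem_image]
    refine ⟨(i l : ZMod p), ?_, rfl⟩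
    rw [Multiset.mem_toFinset, mem_roots]
    · rw [IsRoot.def, hev, h0 l hl, Int.cast_zero]
    · intro hz
      apply h1 l hl
      have := hdev l
      rw [hz, derivative_zero, eval_zero] at this
      exact (ZMod.intCast_zmod_eq_zero_iff_dvd _ _).1 this.symm
  obtain ⟨y, _, hy⟩ := exists_lt_card_fiber_of_mul_lt_card_of_maps_to (n := n) hmap
    (lt_of_le_of_lt (Nat.mul_le_mul_right _ ht) hS)
  refine ⟨_, filter_subset _ _, hy, ?_⟩
  intro l hl m hm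
  rw [mem_filter] at hl hm
  have h2 := hl.2.trans hm.2.symm
  have h3 := congrArg Prod.fst h2
  have h4 := congrArg Prod.snd h2
  simp only at h3 h4
  constructor
  · rw [← ZMod.intCast_zmod_eq_zero_iff_dvd]
    push_cast
    rw [h3, sub_self]
  · rw [← ZMod.intCast_zmod_eq_zero_iff_dvd]
    push_cast
    rw [h4, sub_self]

/-- The points of one residue class are on one line. -/
theorem exists_line {a b : ℕ} (f : Fin (a + 1) × Fin (b + 1) → ℤ) (p : ℕ) (hp : p.Prime)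
    (i : ℕ → ℕ) (L : ℕ) (hi : ∀ l < L, i l < L) (hL : 2 * L ^ 2 ≤ p ^ 3) (S : Finset ℕ)
    (hSL : ∀ l ∈ S, l < L) (n : ℕ) (hn : 1 ≤ n) (hS : p * b * n < S.card)
    (h0 : ∀ l ∈ S, val f l (i l) = 0) (h1 : ∀ l ∈ S, ¬ (p : ℤ) ∣ dy f l (i l)) :
    ∃ α β γ : ℤ, β ≠ 0 ∧ n < (S.filter fun l => α * l + β * i l + γ = 0).card := by
  classical
  obtain ⟨S', hS', hn', hc⟩ := exists_class f p hp i S n hS h0 h1
  obtain ⟨l1, h11, l2, h12, hne⟩ := Finset.one_lt_card.1 (lt_of_le_of_lt hn hn')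
  refine ⟨-((i l2 : ℤ) - i l1), (l2 : ℤ) - l1, ((i l2 : ℤ) - i l1) * l1 - ((l2 : ℤ) - l1) * i l1,
    ?_, lt_of_lt_of_le hn' (card_le_card ?_)⟩
  · intro h
    apply hne
    have : (l2 : ℤ) = l1 := by linarith
    exact_mod_cast this.symm
  · intro l hl
    rw [mem_filter]
    refine ⟨hS' hl, ?_⟩
    have hd := det_dvd f p hp l1 (i l1) l2 (i l2) l (i l) (h0 _ (hS' h11)) (h0 _ (hS' h12))
      (h0 _ (hS' hl)) (hc l2 h12 l1 h11).1 (hc l2 h12 l1 h11).2 (hc l hl l1 h11).1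
      (hc l hl l1 h11).2 (h1 _ (hS' h11))
    have hz : ((l2 : ℤ) - l1) * (i l - i l1) - ((l : ℤ) - l1) * (i l2 - i l1) = 0 := by
      apply Int.eq_zero_of_abs_lt_dvd hd
      have b1 : ∀ m ∈ S', |(m : ℤ) - l1| < L := by
        intro m hm
        have e1 := hSL m (hS' hm)
        have e2 := hSL l1 (hS' h11)
        rw [abs_lt]; omega
      have b2 : ∀ m ∈ S', |(i m : ℤ) - i l1| < L := by
        intro m hm
        have e1 := hi m (hSL m (hS' hm))
        have e2 := hi l1 (hSL l1 (hS' h11))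
        rw [abs_lt]; omega
      have c1 : |((l2 : ℤ) - l1) * (i l - i l1)| < L * L := by
        rw [abs_mul]
        exact mul_lt_mul'' (b1 _ h12) (b2 _ hl) (abs_nonneg _) (abs_nonneg _)
      have c2 : |((l : ℤ) - l1) * (i l2 - i l1)| < L * L := by
        rw [abs_mul]
        exact mul_lt_mul'' (b1 _ hl) (b2 _ h12) (abs_nonneg _) (abs_nonneg _)
      have hL' : 2 * (L : ℤ) ^ 2 ≤ (p : ℤ) ^ 3 := by exact_mod_cast hL
      calc |((l2 : ℤ) - l1) * (i l - i l1) - ((l : ℤ) - l1) * (i l2 - i l1)|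
          ≤ |((l2 : ℤ) - l1) * (i l - i l1)| + |((l : ℤ) - l1) * (i l2 - i l1)| := abs_sub _ _
        _ < L * L + L * L := add_lt_add c1 c2
        _ = 2 * (L : ℤ) ^ 2 := by ring
        _ ≤ (p : ℤ) ^ 3 := hL'
    linarith

end Pool.Agent.H108.St2
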