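import Pool.Agent.H108.St.Basic

/-!
# Strength four: the exponent `25 / 12`
-/

set_option autoImplicit false
open Finset Polynomial

namespace Pool.Agent.H108.St2

open Pool.Agent.H108.St

/-- The auxiliary polynomial. -/
def F4 (K Z : ℤ) : ℤ :=
  Z * (Z - 1) * (K + 2 * Z + 1) ^ 2 * (2 * Z - K - 3) ^ 2 *
    ((K + 1) * (K + 2) + 9 * (Z * (Z - 1))) ^ 3

theorem dvd1 (A B : ℤ) (h : A ∣ B) :
    A ^ 6 ∣ B * (4 * B - 2 * A - A ^ 2) ^ 2 * (A * (A + 1) + 9 * B) ^ 3 := by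
  obtain ⟨w, rfl⟩ := h
  refine ⟨w * (4 * w - 2 - A) ^ 2 * ((A + 1) + 9 * w) ^ 3, ?_⟩
  ring

theorem dvd2 (A B c : ℤ) (h : A ∣ 4 * B * c) :
    A ^ 4 ∣ 256 * (B * (c ^ 2 - A ^ 2) ^ 2 * (A * (A - 1) + 9 * B) ^ 3) := by
  have e : 256 * (B * (c ^ 2 - A ^ 2) ^ 2 * (A * (A - 1) + 9 * B) ^ 3) =
      (4 * B * c) ^ 4 * 729 + A * ((4 * B * c) ^ 3 * (4 * 243 * c * (A - 1))) +
      A ^ 2 * ((4 * B * c) ^ 2 * (16 * 27 * c ^ 2 * (A - 1) ^ 2 - 2 * 16 * 729 * B ^ 2)) +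
      A ^ 3 * ((4 * B * c) * (64 * c ^ 3 * (A - 1) ^ 3 - 2 * 64 * 243 * B ^ 2 * c * (A - 1))) +
      A ^ 4 * (256 * B * (A * (A - 1) + 9 * B) ^ 3 - 2 * 256 * B * c ^ 2 * (27 * B * (A - 1) ^ 2 +
        A * (A - 1) ^ 3)) := by ring
  rw [e]
  have h1 : A ^ 4 ∣ (4 * B * c) ^ 4 := pow_dvd_pow_of_dvd h 4
  have h2 : A ^ 3 ∣ (4 * B * c) ^ 3 := pow_dvd_pow_of_dvd h 3
  have h3 : A ^ 2 ∣ (4 * B * c) ^ 2 := pow_dvd_pow_of_dvd h 2
  refine dvd_add (dvd_add (dvd_add (dvd_add (h1.mul_right _) ?_) ?_) ?_) (dvd_mul_right _ _)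
  · rw [show A ^ 4 = A * A ^ 3 by ring]
    exact mul_dvd_mul_left _ (h2.mul_right _)
  · rw [show A ^ 4 = A ^ 2 * A ^ 2 by ring]
    exact mul_dvd_mul_left _ (h3.mul_right _)
  · rw [show A ^ 4 = A ^ 3 * A by ring]
    exact mul_dvd_mul_left _ (h.mul_right _)

theorem dvd3 (A B : ℤ) (h : A ∣ 9 * (B * (9 * B + 2))) :
    A ^ 3 ∣ 729 * (B * (4 * B + A * (2 - A)) ^ 2 * ((9 * B + 2) + A * (A - 3)) ^ 3) := by
  set E := 9 * B + 2 with hE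
  set D := 9 * (B * E) with hD
  have e : 729 * (B * (4 * B + A * (2 - A)) ^ 2 * (E + A * (A - 3)) ^ 3) =
      D ^ 3 * 16 +
      A * (D ^ 2 * (9 * (16 * 3 * B * (A - 3) + 8 * (2 - A) * E))) +
      A ^ 2 * (D * (81 * (16 * 3 * B ^ 2 * (A - 3) ^ 2 + 8 * (2 - A) * 3 * B * E * (A - 3) +
        (2 - A) ^ 2 * E ^ 2))) +
      A ^ 3 * (729 * (16 * B ^ 3 * (A - 3) ^ 3 + 8 * (2 - A) * B ^ 2 * (3 * E * (A - 3) ^ 2 +
        A * (A - 3) ^ 3) + (2 - A) ^ 2 * B * (3 * E ^ 2 * (A - 3) + 3 * E * A * (A - 3) ^ 2 +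
        A ^ 2 * (A - 3) ^ 3))) := by
    rw [hD]; ring
  rw [e]
  have h1 : A ^ 3 ∣ D ^ 3 := pow_dvd_pow_of_dvd h 3
  have h2 : A ^ 2 ∣ D ^ 2 := pow_dvd_pow_of_dvd h 2
  refine dvd_add (dvd_add (dvd_add (h1.mul_right _) ?_) ?_) (dvd_mul_right _ _)
  · rw [show A ^ 3 = A * A ^ 2 by ring]
    exact mul_dvd_mul_left _ (h2.mul_right _)
  · rw [show A ^ 3 = A ^ 2 * A by ring]
    exact mul_dvd_mul_left _ (h.mul_right _)

theorem F4_dvd1 (K Z : ℤ) (h : K + 1 ∣ Z * (Z - 1)) : (K + 1) ^ 6 ∣ F4 K Z := by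
  have := dvd1 (K + 1) (Z * (Z - 1)) h
  have e : F4 K Z = Z * (Z - 1) * (4 * (Z * (Z - 1)) - 2 * (K + 1) - (K + 1) ^ 2) ^ 2 *
      ((K + 1) * (K + 1 + 1) + 9 * (Z * (Z - 1))) ^ 3 := by
    unfold F4; ring
  rw [e]; exact this

theorem F4_dvd2 (K Z : ℤ) (h : K + 2 ∣ 4 * (Z * (Z - 1)) * (2 * Z - 1)) :
    (K + 2) ^ 4 ∣ 256 * F4 K Z := by
  have := dvd2 (K + 2) (Z * (Z - 1)) (2 * Z - 1) h
  have e : F4 K Z = Z * (Z - 1) * ((2 * Z - 1) ^ 2 - (K + 2) ^ 2) ^ 2 *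
      ((K + 2) * (K + 2 - 1) + 9 * (Z * (Z - 1))) ^ 3 := by
    unfold F4; ring
  rw [e]; exact this

theorem F4_dvd3 (K Z : ℤ) (h : K + 3 ∣ 9 * (Z * (Z - 1) * (9 * (Z * (Z - 1)) + 2))) :
    (K + 3) ^ 3 ∣ 729 * F4 K Z := by
  have := dvd3 (K + 3) (Z * (Z - 1)) h
  have e : F4 K Z = Z * (Z - 1) * (4 * (Z * (Z - 1)) + (K + 3) * (2 - (K + 3))) ^ 2 *
      ((9 * (Z * (Z - 1)) + 2) + (K + 3) * (K + 3 - 3)) ^ 3 := by
    unfold F4; ring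
  rw [e]; exact this

/-- The main inequality for strength four. -/
theorem four {K N : ℕ} (hK : 1 ≤ K) (hD : Dv 4 K N) (hN : K * (K + 1) ≤ N) :
    K ^ 25 ≤ 10 ^ 12 * N ^ 12 := by
  have hKN : K ∣ N := by simpa using hD 1 (by norm_num)
  obtain ⟨Z, rfl⟩ := hKN
  have hZ : K + 1 ≤ Z := Nat.le_of_mul_le_mul_left hN (by omega)
  rcases Nat.lt_or_ge K 2 with hK2 | hK2
  · have hK1 : K = 1 := by omega
    subst hK1
    have : 1 ≤ (1 * Z) ^ 12 := Nat.one_le_pow _ _ (by omega)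
    omega
  have col : ∀ l : ℕ, l < 4 → ((K : ℤ) + l) ∣ ∏ i ∈ range (l + 1), ((K : ℤ) * Z + i) := by
    intro l hl
    have h1 : K + l ∣ ∏ i ∈ range (l + 1), (K * Z + i) :=
      (dvd_prod_of_mem (fun l => K + l) (mem_range.2 (Nat.lt_succ_self l))).trans
        (hD (l + 1) (by omega))
    have h2 : ((K + l : ℕ) : ℤ) ∣ ((∏ i ∈ range (l + 1), (K * Z + i) : ℕ) : ℤ) :=
      Int.natCast_dvd_natCast.2 h1
    push_cast at h2
    exact h2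
  have c1 := col 1 (by norm_num)
  have c2 := col 2 (by norm_num)
  have c3 := col 3 (by norm_num)
  simp only [prod_range_succ, prod_range_zero, Nat.cast_ofNat, Nat.cast_one, Nat.cast_zero,
    one_mul, add_zero] at c1 c2 c3
  set k : ℤ := (K : ℤ) with hk
  set z : ℤ := (Z : ℤ) with hz
  have d1 : k + 1 ∣ z * (z - 1) := by
    have e : z * (z - 1) = k * z * (k * z + 1) - (k + 1) * (z * ((k - 1) * z + 1)) := by ring
    rw [e]; exact dvd_sub c1 (dvd_mul_right _ _)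
  have d2 : k + 2 ∣ 4 * (z * (z - 1)) * (2 * z - 1) := by
    have e : 4 * (z * (z - 1)) * (2 * z - 1) = -(k * z * (k * z + 1) * (k * z + 2)) +
        (k + 2) * (z * ((k ^ 2 - 2 * k + 4) * z ^ 2 + 3 * (k - 2) * z + 2)) := by ring
    rw [e]; exact dvd_add (dvd_neg.2 c2) (dvd_mul_right _ _)
  have d3 : k + 3 ∣ 9 * (z * (z - 1) * (9 * (z * (z - 1)) + 2)) := by
    have e : 9 * (z * (z - 1) * (9 * (z * (z - 1)) + 2)) =
        k * z * (k * z + 1) * (k * z + 2) * (k * z + 3) -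
        (k + 3) * (z * ((k ^ 3 - 3 * k ^ 2 + 9 * k - 27) * z ^ 3 +
          6 * (k ^ 2 - 3 * k + 9) * z ^ 2 + 11 * (k - 3) * z + 6)) := by ring
    rw [e]; exact dvd_sub c3 (dvd_mul_right _ _)
  have f1 := F4_dvd1 k z d1
  have f2 := F4_dvd2 k z d2
  have f3 := F4_dvd3 k z d3
  have hkz : k + 1 ≤ z := by rw [hk, hz]; exact_mod_cast hZ
  have hk2 : 2 ≤ k := by rw [hk]; exact_mod_cast hK2
  have hFpos : 0 < F4 k z := by
    unfold F4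
    have h1 : 0 < z := by linarith
    have h2 : 0 < z - 1 := by linarith
    have h3 : 0 < k + 2 * z + 1 := by linarith
    have h4 : 0 < 2 * z - k - 3 := by linarith
    have h5 : 0 < (k + 1) * (k + 2) + 9 * (z * (z - 1)) := by positivity
    positivity
  have hFle : F4 k z ≤ 36000 * z ^ 12 := by
    unfold F4
    have h1 : 0 ≤ z := by linarith
    have h2 : 0 ≤ z - 1 := by linarith
    have a1 : z - 1 ≤ z := by linarith
    have a2 : (k + 2 * z + 1) ^ 2 ≤ (3 * z) ^ 2 := pow_le_pow_left₀ (by linarith) (by linarith) 2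
    have a3 : (2 * z - k - 3) ^ 2 ≤ (2 * z) ^ 2 := pow_le_pow_left₀ (by linarith) (by linarith) 2
    have a4 : ((k + 1) * (k + 2) + 9 * (z * (z - 1))) ^ 3 ≤ (10 * z ^ 2) ^ 3 := by
      apply pow_le_pow_left₀ (by positivity)
      nlinarith
    calc z * (z - 1) * (k + 2 * z + 1) ^ 2 * (2 * z - k - 3) ^ 2 *
          ((k + 1) * (k + 2) + 9 * (z * (z - 1))) ^ 3
        ≤ z * z * (3 * z) ^ 2 * (2 * z) ^ 2 * (10 * z ^ 2) ^ 3 := by
          gcongr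
      _ = 36000 * z ^ 12 := by ring
  -- the product of the three powers divides a multiple
  set M : ℤ := 256 * 729 * F4 k z with hM
  have g1 : (k + 1) ^ 6 ∣ M := by rw [hM]; exact f1.mul_left _
  have g2 : (k + 2) ^ 4 ∣ M := by
    rw [hM, show 256 * 729 * F4 k z = 729 * (256 * F4 k z) by ring]; exact f2.mul_left _
  have g3 : (k + 3) ^ 3 ∣ M := by
    rw [hM, show 256 * 729 * F4 k z = 256 * (729 * F4 k z) by ring]; exact f3.mul_left _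
  have n1 : (K + 1) ^ 6 ∣ M.natAbs := by
    rw [← Int.natCast_dvd]; push_cast; exact g1
  have n2 : (K + 2) ^ 4 ∣ M.natAbs := by
    rw [← Int.natCast_dvd]; push_cast; exact g2
  have n3 : (K + 3) ^ 3 ∣ M.natAbs := by
    rw [← Int.natCast_dvd]; push_cast; exact g3
  have hg : Nat.gcd ((K + 1) ^ 6) ((K + 3) ^ 3) ∣ 64 := by
    have h1 : Nat.gcd ((K + 1) ^ 6) ((K + 3) ^ 3) ∣ Nat.gcd ((K + 1) ^ 6) ((K + 3) ^ 6) :=
      Nat.gcd_dvd_gcd_of_dvd_right _ (pow_dvd_pow _ (by norm_num))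
    rw [Nat.pow_gcd_pow] at h1
    have h2 : Nat.gcd (K + 1) (K + 3) ∣ 2 := by
      have := Nat.dvd_sub (Nat.gcd_dvd_right (K + 1) (K + 3)) (Nat.gcd_dvd_left (K + 1) (K + 3))
      rwa [show K + 3 - (K + 1) = 2 by omega] at this
    exact h1.trans ((pow_dvd_pow_of_dvd h2 6).trans (by norm_num))
  have m1 : (K + 1) ^ 6 * (K + 3) ^ 3 ∣ 64 * M.natAbs := by
    rw [← Nat.gcd_mul_lcm]
    exact Nat.mul_dvd_mul hg (Nat.lcm_dvd n1 n3)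
  have cop : Nat.Coprime ((K + 1) ^ 6 * (K + 3) ^ 3) ((K + 2) ^ 4) := by
    have h1 : Nat.Coprime (K + 1) (K + 2) := by
      rw [show K + 2 = (K + 1) + 1 by ring]; simp
    have h2 : Nat.Coprime (K + 3) (K + 2) := by
      rw [show K + 3 = (K + 2) + 1 by ring]; simp
    exact Nat.Coprime.mul_left (h1.pow 6 4) (h2.pow 3 4)
  have m2 : (K + 1) ^ 6 * (K + 3) ^ 3 * (K + 2) ^ 4 ∣ 64 * M.natAbs :=
    cop.mul_dvd_of_dvd_of_dvd m1 (n2.mul_left _)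
  have hMpos : 0 < M := by rw [hM]; positivity
  have m3 := Nat.le_of_dvd (by have := Int.natAbs_pos.2 hMpos.ne'; omega) m2
  have m4 : ((64 * M.natAbs : ℕ) : ℤ) = 64 * M := by
    push_cast; rw [abs_of_pos hMpos]
  have m5 : (((K + 1) ^ 6 * (K + 3) ^ 3 * (K + 2) ^ 4 : ℕ) : ℤ) ≤ 64 * M := by
    rw [← m4]; exact_mod_cast m3
  push_cast at m5
  rw [← hk] at m5
  have m6 : k ^ 13 ≤ (k + 1) ^ 6 * (k + 3) ^ 3 * (k + 2) ^ 4 := by
    calc k ^ 13 = k ^ 6 * k ^ 3 * k ^ 4 := by ring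
      _ ≤ (k + 1) ^ 6 * (k + 3) ^ 3 * (k + 2) ^ 4 := by
        gcongr <;> linarith
  have m7 : k ^ 13 ≤ 10 ^ 12 * z ^ 12 := by
    have hz0 : 0 ≤ z ^ 12 := by positivity
    calc k ^ 13 ≤ 64 * M := m6.trans m5
      _ = 64 * (256 * 729) * F4 k z := by rw [hM]; ring
      _ ≤ 64 * (256 * 729) * (36000 * z ^ 12) := by gcongr
      _ ≤ 10 ^ 12 * z ^ 12 := by nlinarith
  have m8 : k ^ 25 ≤ 10 ^ 12 * (k * z) ^ 12 := by
    calc k ^ 25 = k ^ 12 * k ^ 13 := by ring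
      _ ≤ k ^ 12 * (10 ^ 12 * z ^ 12) := by gcongr
      _ = 10 ^ 12 * (k * z) ^ 12 := by ring
  rw [hk, hz] at m8
  exact_mod_cast m8

end Pool.Agent.H108.St2
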