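import Mathlib

/-!
# The choice of a prime number
-/

set_option autoImplicit false
open Finset

namespace Pool.Agent.H108.St2

theorem card_primes_dvd_le (P : Finset ℕ) (M w : ℕ) (hP : ∀ p ∈ P, p.Prime ∧ M < p) (G : ℤ)
    (hG0 : G ≠ 0) (hG : |G| ≤ (M : ℤ) ^ w) : (P.filter fun p : ℕ => (p : ℤ) ∣ G).card ≤ w := by
  classical
  by_contra hcon
  push Not at hcon
  set Q := P.filter fun p : ℕ => (p : ℤ) ∣ G with hQ
  have h1 : ∏ p ∈ Q, p ∣ G.natAbs := by
    apply Finset.prod_primes_dvd
    · intro p hp
      exact (hP p (mem_filter.1 hp).1).1.prime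
    · intro p hp
      exact Int.natCast_dvd.1 (mem_filter.1 hp).2
  have h2 : (M + 1) ^ Q.card ≤ ∏ p ∈ Q, p := by
    rw [← prod_const]
    apply prod_le_prod' 
    intro p hp
    exact (hP p (mem_filter.1 hp).1).2
  have h3 := Nat.le_of_dvd (Int.natAbs_pos.2 hG0) h1
  have h4 : G.natAbs ≤ M ^ w := by
    have : ((G.natAbs : ℕ) : ℤ) ≤ (M : ℤ) ^ w := by rw [← Int.abs_eq_natAbs]; exact hG
    exact_mod_cast this
  have h5 : M ^ w < (M + 1) ^ Q.card :=
    calc M ^ w ≤ (M + 1) ^ w := Nat.pow_le_pow_left (by omega) _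
      _ < (M + 1) ^ Q.card := by
        rcases Nat.eq_zero_or_pos M with h | h
        · subst h
          rcases Nat.eq_zero_or_pos w with hw | hw
          · subst hw
            exfalso
            -- a prime divides a unit
            obtain ⟨p, hp⟩ := Finset.card_pos.1 hcon
            have h6 := (hP p (mem_filter.1 hp).1).1
            have h7 : p ∣ G.natAbs := Int.natCast_dvd.1 (mem_filter.1 hp).2
            have h8 := Nat.le_of_dvd (Int.natAbs_pos.2 hG0) h7
            have := h6.two_le
            simp at h4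
            omega
          · exfalso
            rw [zero_pow (by omega)] at h4
            have := Int.natAbs_pos.2 hG0
            omega
        · exact Nat.pow_lt_pow_right (by omega) hcon
  omega

theorem exists_prime (S : Finset ℕ) (G : ℕ → ℤ) (M B w : ℕ) (hS : S.Nonempty)
    (hG0 : ∀ l ∈ S, G l ≠ 0) (hG : ∀ l ∈ S, |G l| ≤ (M : ℤ) ^ w)
    (hB : M + 2 * w + 1 ≤ Nat.primeCounting B) :
    ∃ p : ℕ, p.Prime ∧ M < p ∧ p ≤ B ∧
      S.card ≤ 2 * (S.filter fun l => ¬ (p : ℤ) ∣ G l).card := by
  classical
  set P := (range (B + 1)).filter fun p => p.Prime ∧ M < p with hP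
  have hPc : 2 * w + 1 ≤ P.card := by
    have h1 : Nat.primeCounting B ≤ P.card + M := by
      unfold Nat.primeCounting Nat.primeCounting'
      rw [Nat.count_eq_card_filter_range]
      calc ((range (B + 1)).filter Nat.Prime).card
          ≤ (P ∪ Finset.Icc 1 M).card := by
            apply card_le_card
            intro p hp
            rw [mem_filter] at hp
            rw [mem_union]
            by_cases h : M < p
            · left
              rw [hP, mem_filter]
              exact ⟨hp.1, hp.2, h⟩
            · right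
              rw [mem_Icc]
              exact ⟨hp.2.pos, not_lt.1 h⟩
        _ ≤ P.card + (Finset.Icc 1 M).card := card_union_le _ _
        _ = P.card + M := by rw [Nat.card_Icc]; omega
    omega
  by_contra hcon
  push Not at hcon
  have h1 : ∀ p ∈ P, S.card + 1 ≤ 2 * (S.filter fun l => (p : ℤ) ∣ G l).card := by
    intro p hp
    rw [hP, mem_filter, mem_range] at hp
    have h2 := hcon p hp.2.1 hp.2.2 (by omega)
    have h3 := card_filter_add_card_filter_not (s := S) (fun l => (p : ℤ) ∣ G l)
    omega
  have h2 : ∑ p ∈ P, (S.card + 1) ≤ ∑ p ∈ P, 2 * (S.filter fun l => (p : ℤ) ∣ G l).card :=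
    sum_le_sum h1
  rw [sum_const, smul_eq_mul, ← mul_sum] at h2
  have h3 : ∑ p ∈ P, (S.filter fun l => (p : ℤ) ∣ G l).card =
      ∑ l ∈ S, (P.filter fun p : ℕ => (p : ℤ) ∣ G l).card := by
    have := sum_card_bipartiteAbove_eq_sum_card_bipartiteBelow (s := P) (t := S)
      (r := fun (p : ℕ) l => (p : ℤ) ∣ G l)
    exact this
  have h4 : ∑ l ∈ S, (P.filter fun p : ℕ => (p : ℤ) ∣ G l).card ≤ S.card * w := by
    calc _ ≤ ∑ _l ∈ S, w := by
          apply sum_le_sum
          intro l hl
          exact card_primes_dvd_le P M w (fun p hp => by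
            rw [hP, mem_filter] at hp; exact hp.2) (G l) (hG0 l hl) (hG l hl)
      _ = S.card * w := by rw [sum_const, smul_eq_mul]
  rw [h3] at h2
  have h5 : 0 < S.card := card_pos.2 hS
  nlinarith

end Pool.Agent.H108.St2
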