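import Pool.Agent.H108.St.Taylor

/-!
# A polynomial with small coefficients through given points
-/

set_option autoImplicit false
open Finset Polynomial

namespace Pool.Agent.H108.St2

open Pool.Agent.H108.St

attribute [local instance] Matrix.seminormedAddCommGroup

/-- The exponents. -/
abbrev Bt (a b : ℕ) := Fin (a + 1) × Fin (b + 1)

theorem exists_small {a b : ℕ} (S : Finset ℕ) (i : ℕ → ℕ) (L : ℕ) (hSL : ∀ l ∈ S, l < L)
    (hi : ∀ l < L, i l < L) (hL : 1 ≤ L) (f : Fin (a + 1) × Fin (b + 1) → ℤ) (hf : f ≠ 0)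
    (h0 : ∀ l ∈ S, St.val f l (i l) = 0) :
    ∃ g : Fin (a + 1) × Fin (b + 1) → ℤ, g ≠ 0 ∧ (∀ l ∈ S, St.val g l (i l) = 0) ∧
      ∀ e, |g e| ≤ ((((a + 1) * (b + 1) * L ^ (a + b)) ^ ((a + 1) * (b + 1)) : ℕ) : ℤ) := by
  classical
  rcases S.eq_empty_or_nonempty with hS | hS
  · subst hS
    refine ⟨Pi.single 0 1, by simp, by simp, ?_⟩
    intro e
    have h1 : (1 : ℤ) ≤ ((((a + 1) * (b + 1) * L ^ (a + b)) ^ ((a + 1) * (b + 1)) : ℕ) : ℤ) := by
      have : 1 ≤ ((a + 1) * (b + 1) * L ^ (a + b)) ^ ((a + 1) * (b + 1)) :=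
        Nat.one_le_pow _ _ (by positivity)
      exact_mod_cast this
    by_cases he : e = 0
    · subst he; simp only [Pi.single_eq_same, abs_one]; exact h1
    · rw [Pi.single_eq_of_ne he, abs_zero]; linarith
  have hcard : Fintype.card (Bt a b) = (a + 1) * (b + 1) := by
    rw [Fintype.card_prod, Fintype.card_fin, Fintype.card_fin]
  let v : {l // l ∈ S} → ((Bt a b) → ℚ) := fun l e => (l.1 : ℚ) ^ (e.1 : ℕ) * (i l.1 : ℚ) ^ (e.2 : ℕ)
  let Φ : ((Bt a b) → ℤ) → (((Bt a b) → ℚ) →ₗ[ℚ] ℚ) := fun g => ∑ e, (g e : ℚ) • LinearMap.proj e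
  have hΦ : ∀ g w, Φ g w = ∑ e, (g e : ℚ) * w e := by
    intro g w
    simp [Φ, LinearMap.sum_apply]
  have hΦv : ∀ g l, Φ g (v l) = ((St.val g l.1 (i l.1) : ℤ) : ℚ) := by
    intro g l
    rw [hΦ]
    simp only [v, St.val]
    push_cast
    apply Finset.sum_congr rfl
    intro e _
    ring
  obtain ⟨κ, φ, hinj, hspan, hli⟩ := exists_linearIndependent' ℚ v
  have : Finite κ := Finite.of_injective φ hinj
  have : Fintype κ := Fintype.ofFinite κ
  have hlt : Fintype.card κ < Fintype.card (Bt a b) := by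
    rw [← finrank_span_eq_card hli, hspan]
    have h1 : Submodule.span ℚ (Set.range v) ≤ LinearMap.ker (Φ f) := by
      rw [Submodule.span_le]
      rintro _ ⟨l, rfl⟩
      show Φ f (v l) = 0
      rw [hΦv, h0 l.1 l.2, Int.cast_zero]
    have h2 : LinearMap.ker (Φ f) ≠ ⊤ := by
      intro h
      apply hf
      funext e
      have h3 : (Pi.single e 1 : (Bt a b) → ℚ) ∈ LinearMap.ker (Φ f) := by rw [h]; trivial
      have h4 : Φ f (Pi.single e 1) = 0 := h3
      rw [hΦ, Finset.sum_eq_single e] at h4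
      · simpa using h4
      · intro e' _ hne
        rw [Pi.single_eq_of_ne hne, mul_zero]
      · intro h; exact absurd (mem_univ _) h
    calc Module.finrank ℚ (Submodule.span ℚ (Set.range v))
        ≤ Module.finrank ℚ (LinearMap.ker (Φ f)) := Submodule.finrank_mono h1
      _ < Module.finrank ℚ ((Bt a b) → ℚ) := Submodule.finrank_lt h2
      _ = Fintype.card (Bt a b) := Module.finrank_fintype_fun_eq_card ℚ
  have hpos : 0 < Fintype.card κ := by
    rw [Fintype.card_pos_iff]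
    by_contra hne
    rw [not_nonempty_iff] at hne
    obtain ⟨l, hl⟩ := hS
    have h1 : v ⟨l, hl⟩ ∈ Submodule.span ℚ (Set.range (v ∘ φ)) := by
      rw [hspan]; exact Submodule.subset_span ⟨_, rfl⟩
    rw [Set.range_eq_empty, Submodule.span_empty, Submodule.mem_bot] at h1
    have h2 := congrFun h1 (0, 0)
    simp [v] at h2
  let A : Matrix κ (Bt a b) ℤ := fun k e => ((φ k).1 : ℤ) ^ (e.1 : ℕ) * (i (φ k).1 : ℤ) ^ (e.2 : ℕ)
  obtain ⟨g, hg0, hg, hgn⟩ := Int.Matrix.exists_ne_zero_int_vec_norm_le A hlt hpos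
  refine ⟨g, hg0, ?_, ?_⟩
  · intro l hl
    have h1 : Submodule.span ℚ (Set.range (v ∘ φ)) ≤ LinearMap.ker (Φ g) := by
      rw [Submodule.span_le]
      rintro _ ⟨k, rfl⟩
      show Φ g (v (φ k)) = 0
      rw [hΦ]
      have h2 := congrFun hg k
      simp only [Matrix.mulVec, dotProduct, A, Pi.zero_apply] at h2
      have h3 : ((∑ e, ((φ k).1 : ℤ) ^ (e.1 : ℕ) * (i (φ k).1 : ℤ) ^ (e.2 : ℕ) * g e : ℤ) : ℚ) = 0 := by
        rw [h2, Int.cast_zero]
      push_cast at h3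
      rw [← h3]
      apply Finset.sum_congr rfl
      intro e _
      simp only [v]
      ring
    rw [hspan] at h1
    have h2 : Φ g (v ⟨l, hl⟩) = 0 := h1 (Submodule.subset_span ⟨_, rfl⟩)
    rw [hΦv] at h2
    exact_mod_cast h2
  · intro e
    have h1 : ‖g e‖ ≤ ‖g‖ := norm_le_pi_norm g e
    rw [Int.norm_eq_abs] at h1
    have hAn : max 1 ‖A‖ ≤ (L : ℝ) ^ (a + b) := by
      have hL1 : (1 : ℝ) ≤ L := by exact_mod_cast hL
      apply max_le (one_le_pow₀ hL1)
      rw [Matrix.norm_le_iff (by positivity)]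
      intro k e
      rw [Int.norm_eq_abs]
      have h2 := hSL (φ k).1 (φ k).2
      have h3 := hi _ h2
      simp only [A]
      rw [abs_of_nonneg (by positivity)]
      push_cast
      have h4 : ((φ k).1 : ℝ) ≤ L := by exact_mod_cast h2.le
      have h5 : (i (φ k).1 : ℝ) ≤ L := by exact_mod_cast h3.le
      calc ((φ k).1 : ℝ) ^ (e.1 : ℕ) * (i (φ k).1 : ℝ) ^ (e.2 : ℕ)
          ≤ (L : ℝ) ^ (e.1 : ℕ) * (L : ℝ) ^ (e.2 : ℕ) := by gcongr
        _ ≤ (L : ℝ) ^ a * (L : ℝ) ^ b := by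
            have e1 := Nat.lt_succ_iff.1 e.1.2
            have e2 := Nat.lt_succ_iff.1 e.2.2
            gcongr
        _ = (L : ℝ) ^ (a + b) := (pow_add _ _ _).symm
    have hs1 : (1 : ℝ) ≤ Fintype.card (Bt a b) := by
      have : 1 ≤ Fintype.card (Bt a b) := by omega
      exact_mod_cast this
    have h2 : ((Fintype.card (Bt a b) : ℝ) * max 1 ‖A‖) ^
        ((Fintype.card κ : ℝ) / ((Fintype.card (Bt a b) : ℝ) - Fintype.card κ)) ≤
        ((Fintype.card (Bt a b) : ℝ) * (L : ℝ) ^ (a + b)) ^ ((Fintype.card (Bt a b) : ℕ) : ℝ) := by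
      have h3 : (1 : ℝ) ≤ (Fintype.card (Bt a b) : ℝ) * max 1 ‖A‖ := by
        have := le_max_left 1 ‖A‖
        nlinarith
      have h4 : (Fintype.card κ : ℝ) / ((Fintype.card (Bt a b) : ℝ) - Fintype.card κ) ≤
          (Fintype.card (Bt a b) : ℝ) := by
        have h5 : (Fintype.card κ : ℝ) + 1 ≤ Fintype.card (Bt a b) := by exact_mod_cast hlt
        rw [div_le_iff₀ (by linarith)]
        nlinarith
      calc _ ≤ ((Fintype.card (Bt a b) : ℝ) * max 1 ‖A‖) ^ ((Fintype.card (Bt a b) : ℕ) : ℝ) :=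
            Real.rpow_le_rpow_of_exponent_le h3 h4
        _ ≤ _ := Real.rpow_le_rpow (by linarith) (by gcongr) (by positivity)
    have h3 := h1.trans (hgn.trans h2)
    rw [Real.rpow_natCast, hcard] at h3
    have h4 : ((|g e| : ℤ) : ℝ) ≤ ((((a + 1) * (b + 1) * L ^ (a + b)) ^ ((a + 1) * (b + 1)) : ℕ) : ℝ) := by
      push_cast
      push_cast at h3
      exact h3
    exact_mod_cast h4

end Pool.Agent.H108.St2
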