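import Pool.Agent.H108.St2.Det
import Pool.Agent.H108.St2.Small
import Pool.Agent.H108.St2.PrimeChoice

/-!
# A curve with a point in every column contains many points of one line
-/

set_option autoImplicit false
open Finset Polynomial

namespace Pool.Agent.H108.St2

open Pool.Agent.H108.St

/-- The coefficients of the derivative in the second variable. -/
def cdy {a b : ℕ} (g : Bt a (b + 1) → ℤ) : Bt a b → ℤ :=
  fun t => g (t.1, t.2.succ) * (((t.2 : ℕ) + 1 : ℕ) : ℤ)

theorem val_cdy {a b : ℕ} (g : Bt a (b + 1) → ℤ) (x y : ℤ) : St.val (cdy g) x y = dy g x y := by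
  unfold St.val dy cdy
  rw [Fintype.sum_prod_type, Fintype.sum_prod_type]
  apply Finset.sum_congr rfl
  intro s _
  conv_rhs => rw [Fin.sum_univ_succ]
  simp only [Fin.val_zero, Nat.cast_zero, zero_mul, mul_zero, zero_add, Fin.val_succ,
    Nat.add_sub_cancel]
  apply Finset.sum_congr rfl
  intro t _
  ring

theorem card_zeros_le {a : ℕ} (f : Bt a 0 → ℤ) (hf : f ≠ 0) (i : ℕ → ℕ) (L : ℕ) :
    ((range L).filter fun l : ℕ => St.val f l (i l) = 0).card ≤ a := by
  classical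
  set p : ℤ[X] := ∑ e : Bt a 0, C (f e) * X ^ (e.1 : ℕ) with hp
  have hev : ∀ x y : ℤ, p.eval x = St.val f x y := by
    intro x y
    rw [hp, St.val, eval_finsetSum]
    apply Finset.sum_congr rfl
    intro e _
    have : (e.2 : ℕ) = 0 := by have := e.2.2; omega
    rw [this]
    simp
  have hp0 : p ≠ 0 := by
    intro h
    apply hf
    funext e
    have h1 : p.coeff (e.1 : ℕ) = f e := by
      rw [hp, finsetSum_coeff, Finset.sum_eq_single e]
      · simp
      · intro e' _ hne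
        rw [coeff_C_mul, coeff_X_pow, if_neg, mul_zero]
        intro h2
        apply hne
        exact Prod.ext (Fin.ext h2.symm) (Fin.ext (by have := e.2.2; have := e'.2.2; omega))
      · intro h; exact absurd (mem_univ _) h
    rw [h, coeff_zero] at h1
    exact h1.symm
  have hd : p.natDegree ≤ a := by
    rw [hp]
    apply natDegree_sum_le_of_forall_le
    intro e _
    exact (natDegree_C_mul_X_pow_le _ _).trans (Nat.lt_succ_iff.1 e.1.2)
  calc ((range L).filter fun l : ℕ => St.val f l (i l) = 0).card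
      = (((range L).filter fun l : ℕ => St.val f l (i l) = 0).image (fun l : ℕ => (l : ℤ))).card := by
        rw [card_image_of_injective _ Nat.cast_injective]
    _ ≤ p.roots.toFinset.card := by
        apply card_le_card
        intro x hx
        rw [mem_image] at hx
        obtain ⟨l, hl, rfl⟩ := hx
        rw [mem_filter] at hl
        rw [Multiset.mem_toFinset, mem_roots hp0, IsRoot.def, hev _ (i l)]
        exact hl.2
    _ ≤ a := (Multiset.toFinset_card_le _).trans ((card_roots' _).trans hd)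

/-- The property used in the descent. -/
def Pp (D δ L : ℕ) (i : ℕ → ℕ) (e : ℕ) : Prop :=
  ∃ f : Bt D e → ℤ, f ≠ 0 ∧
    (δ + e) * L ≤ 2 * δ * ((range L).filter fun l : ℕ => St.val f l (i l) = 0).card

theorem not_Pp_zero {D δ L : ℕ} {i : ℕ → ℕ} (hδ : 1 ≤ δ) (hL : 2 * D < L) : ¬ Pp D δ L i 0 := by
  rintro ⟨f, hf, h⟩
  have h1 := card_zeros_le f hf i L
  have h2 : δ * L ≤ δ * (2 * D) := by
    calc δ * L = (δ + 0) * L := by ring
      _ ≤ _ := h
      _ ≤ 2 * δ * D := Nat.mul_le_mul_left _ h1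
      _ = δ * (2 * D) := by ring
  have h3 := Nat.le_of_mul_le_mul_left h2 (by omega)
  omega

theorem abs_dy_le {D e L H : ℕ} (g : Bt D e → ℤ) (hg : ∀ t, |g t| ≤ (H : ℤ)) (x y : ℕ)
    (hx : x < L) (hy : y < L) :
    |dy g x y| ≤ (((D + 1) * (e + 1) * (H * L ^ D * (e * L ^ e)) : ℕ) : ℤ) := by
  unfold dy
  refine (Finset.abs_sum_le_sum_abs _ _).trans ?_
  have h1 : ∀ t ∈ (univ : Finset (Bt D e)), |g t * (x : ℤ) ^ (t.1 : ℕ) * ((t.2 : ℕ) *
      (y : ℤ) ^ ((t.2 : ℕ) - 1))| ≤ ((H * L ^ D * (e * L ^ e) : ℕ) : ℤ) := by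
    intro t _
    rw [abs_mul, abs_mul, abs_mul, abs_pow, abs_pow, Nat.abs_cast, Nat.abs_cast, Nat.abs_cast]
    push_cast
    have e1 := Nat.lt_succ_iff.1 t.1.2
    have e2 := Nat.lt_succ_iff.1 t.2.2
    have a1 : (x : ℤ) ^ (t.1 : ℕ) ≤ (L : ℤ) ^ D := by
      calc (x : ℤ) ^ (t.1 : ℕ) ≤ (L : ℤ) ^ (t.1 : ℕ) := by
            apply pow_le_pow_left₀ (by positivity); exact_mod_cast hx.le
        _ ≤ (L : ℤ) ^ D := pow_le_pow_right₀ (by exact_mod_cast (by omega : 1 ≤ L)) e1
    have a2 : (y : ℤ) ^ ((t.2 : ℕ) - 1) ≤ (L : ℤ) ^ e := by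
      calc (y : ℤ) ^ ((t.2 : ℕ) - 1) ≤ (L : ℤ) ^ ((t.2 : ℕ) - 1) := by
            apply pow_le_pow_left₀ (by positivity); exact_mod_cast hy.le
        _ ≤ (L : ℤ) ^ e := pow_le_pow_right₀ (by exact_mod_cast (by omega : 1 ≤ L)) (by omega)
    have a3 : ((t.2 : ℕ) : ℤ) ≤ e := by exact_mod_cast e2
    have a4 := hg t
    gcongr
  refine (Finset.sum_le_sum h1).trans ?_
  rw [sum_const, card_univ, Fintype.card_prod, Fintype.card_fin, Fintype.card_fin, nsmul_eq_mul]
  push_cast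
  exact le_rfl

theorem zero_line (L D δ e M B w n : ℕ) (i : ℕ → ℕ) (hi : ∀ l < L, i l < L) (hδ : 1 ≤ δ)
    (he : e ≤ δ) (f : Bt D e → ℤ) (hf : f ≠ 0) (h0 : ∀ l < L, St.val f l (i l) = 0)
    (hn : 1 ≤ n) (hM : 2 * L ^ 2 ≤ M ^ 3) (hB : M + 2 * w + 1 ≤ Nat.primeCounting B)
    (hw : (D + 1) * (δ + 1) * (((D + 1) * (δ + 1) * L ^ (D + δ)) ^ ((D + 1) * (δ + 1)) * L ^ D *
      (δ * L ^ δ)) ≤ M ^ w)
    (hL : 4 * δ * (B * δ * n) ≤ L) (hLD : 2 * D < L) :
    ∃ α β γ : ℤ, β ≠ 0 ∧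
      n < ((range L).filter fun l : ℕ => α * (l : ℤ) + β * (i l : ℤ) + γ = 0).card := by
  classical
  have hP : ∃ e, Pp D δ L i e := by
    refine ⟨e, f, hf, ?_⟩
    rw [filter_true_of_mem (fun l hl => h0 l (mem_range.1 hl)), card_range]
    exact Nat.mul_le_mul_right _ (by omega)
  have hPe : Pp D δ L i e := by
    refine ⟨f, hf, ?_⟩
    rw [filter_true_of_mem (fun l hl => h0 l (mem_range.1 hl)), card_range]
    exact Nat.mul_le_mul_right _ (by omega)
  obtain ⟨e0, he0, hmin⟩ : ∃ e0, Pp D δ L i e0 ∧ ∀ m < e0, ¬ Pp D δ L i m :=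
    ⟨Nat.find hP, Nat.find_spec hP, fun m hm => Nat.find_min hP hm⟩
  have he0le : e0 ≤ e := by
    by_contra hcon
    exact hmin e (not_le.1 hcon) hPe
  have hP0 : ¬ Pp D δ L i 0 := not_Pp_zero hδ hLD
  obtain ⟨e1, rfl⟩ : ∃ e1, e0 = e1 + 1 := by
    cases e0 with
    | zero => exact absurd he0 hP0
    | succ k => exact ⟨k, rfl⟩
  obtain ⟨f2, hf2, hc2⟩ := he0
  set S' := (range L).filter fun l : ℕ => St.val f2 l (i l) = 0 with hS'
  have hS'L : ∀ l ∈ S', l < L := fun l hl => mem_range.1 (mem_filter.1 hl).1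
  obtain ⟨g, hg0, hgS, hgb⟩ := exists_small S' i L hS'L hi (by omega) f2 hf2
    (fun l hl => (mem_filter.1 hl).2)
  -- the derivative
  have hcd : cdy g ≠ 0 := by
    intro hz
    apply hP0
    have hz' : ∀ (s : Fin (D + 1)) (t : Fin (e1 + 1)), g (s, t.succ) = 0 := by
      intro s t
      have h1 := congrFun hz (s, t)
      simp only [cdy, Pi.zero_apply, mul_eq_zero] at h1
      rcases h1 with h1 | h1
      · exact h1
      · exfalso
        have : ((t : ℕ) + 1 : ℕ) = 0 := by exact_mod_cast h1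
        omega
    refine ⟨fun t => g (t.1, 0), ?_, ?_⟩
    · intro h1
      apply hg0
      funext ⟨s, t⟩
      refine Fin.cases ?_ (fun t => ?_) t
      · exact congrFun h1 (s, 0)
      · exact hz' s t
    · have h2 : S' ⊆ (range L).filter fun l : ℕ => St.val (fun t : Bt D 0 => g (t.1, 0)) l (i l) = 0 := by
        intro l hl
        rw [mem_filter]
        refine ⟨mem_range.2 (hS'L l hl), ?_⟩
        rw [← hgS l hl]
        unfold St.val
        rw [Fintype.sum_prod_type, Fintype.sum_prod_type]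
        apply Finset.sum_congr rfl
        intro s _
        rw [Fin.sum_univ_succ, Fin.sum_univ_succ]
        simp [hz']
      calc (δ + 0) * L ≤ (δ + (e1 + 1)) * L := Nat.mul_le_mul_right _ (by omega)
        _ ≤ 2 * δ * S'.card := hc2
        _ ≤ _ := Nat.mul_le_mul_left _ (card_le_card h2)
  have hne1 : 2 * δ * ((range L).filter fun l : ℕ => St.val (cdy g) l (i l) = 0).card < (δ + e1) * L := by
    by_contra hcon
    exact hmin e1 (by omega) ⟨cdy g, hcd, not_lt.1 hcon⟩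
  set S2 := S'.filter fun l : ℕ => ¬ dy g l (i l) = 0 with hS2
  have hcard1 : S'.card ≤ S2.card + ((range L).filter fun l : ℕ => St.val (cdy g) l (i l) = 0).card := by
    refine le_trans (card_le_card (t := S2 ∪ _) ?_) (card_union_le S2 _)
    intro l hl
    rw [mem_union]
    by_cases h1 : dy g l (i l) = 0
    · right
      rw [mem_filter]
      exact ⟨mem_range.2 (hS'L l hl), by rw [val_cdy]; exact h1⟩
    · left
      rw [hS2, mem_filter]
      exact ⟨hl, h1⟩
  have hcard2 : L < 2 * δ * S2.card := by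
    have h1 : 2 * δ * S'.card ≤ 2 * δ * (S2.card +
      ((range L).filter fun l : ℕ => St.val (cdy g) l (i l) = 0).card) := Nat.mul_le_mul_left _ hcard1
    have h2 : (δ + (e1 + 1)) * L = (δ + e1) * L + L := by ring
    rw [h2] at hc2
    rw [mul_add] at h1
    omega
  have hS2n : S2.Nonempty := by
    rw [← card_pos]
    by_contra h
    have : S2.card = 0 := by omega
    rw [this] at hcard2
    omega
  have he1δ : e1 + 1 ≤ δ := he0le.trans he
  have hL1 : 1 ≤ L := by omega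
  obtain ⟨p, hp, hMp, hpB, hpS⟩ := exists_prime S2 (fun l => dy g l (i l)) M B w hS2n
    (fun l hl => (mem_filter.1 hl).2) (by
      intro l hl
      have hl' := hS'L l (mem_filter.1 hl).1
      refine (abs_dy_le g hgb l (i l) hl' (hi l hl')).trans ?_
      have h1 : (D + 1) * (e1 + 1 + 1) * (((D + 1) * (e1 + 1 + 1) * L ^ (D + (e1 + 1))) ^
          ((D + 1) * (e1 + 1 + 1)) * L ^ D * ((e1 + 1) * L ^ (e1 + 1))) ≤
          (D + 1) * (δ + 1) * (((D + 1) * (δ + 1) * L ^ (D + δ)) ^ ((D + 1) * (δ + 1)) * L ^ D *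
            (δ * L ^ δ)) := by
        have a1 : L ^ (D + (e1 + 1)) ≤ L ^ (D + δ) := Nat.pow_le_pow_right hL1 (by omega)
        have a2 : L ^ (e1 + 1) ≤ L ^ δ := Nat.pow_le_pow_right hL1 he1δ
        have a3 : (D + 1) * (e1 + 1 + 1) ≤ (D + 1) * (δ + 1) := Nat.mul_le_mul_left _ (by omega)
        have a4 : ((D + 1) * (e1 + 1 + 1) * L ^ (D + (e1 + 1))) ^ ((D + 1) * (e1 + 1 + 1)) ≤
            ((D + 1) * (δ + 1) * L ^ (D + δ)) ^ ((D + 1) * (δ + 1)) := by
          calc _ ≤ ((D + 1) * (δ + 1) * L ^ (D + δ)) ^ ((D + 1) * (e1 + 1 + 1)) :=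
                Nat.pow_le_pow_left (Nat.mul_le_mul a3 a1) _
            _ ≤ _ := Nat.pow_le_pow_right (by positivity) a3
        exact Nat.mul_le_mul a3 (Nat.mul_le_mul (Nat.mul_le_mul_right _ a4)
          (Nat.mul_le_mul he1δ a2))
      exact_mod_cast h1.trans hw) hB
  set S3 := S2.filter fun l : ℕ => ¬ (p : ℤ) ∣ dy g l (i l) with hS3
  have hcard3 : p * (e1 + 1) * n < S3.card := by
    have h1 : L < 4 * δ * S3.card := by
      calc L < 2 * δ * S2.card := hcard2
        _ ≤ 2 * δ * (2 * S3.card) := Nat.mul_le_mul_left _ hpS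
        _ = 4 * δ * S3.card := by ring
    have h2 : B * δ * n < S3.card := Nat.lt_of_mul_lt_mul_left (lt_of_le_of_lt hL h1)
    exact lt_of_le_of_lt (Nat.mul_le_mul_right _ (Nat.mul_le_mul hpB he1δ)) h2
  have hS3S' : ∀ l ∈ S3, l ∈ S' := fun l hl => (mem_filter.1 (mem_filter.1 hl).1).1
  obtain ⟨α, β, γ, hβ, hcnt⟩ := exists_line g p hp i L hi
    (hM.trans (Nat.pow_le_pow_left hMp.le 3)) S3 (fun l hl => hS'L l (hS3S' l hl)) n hn hcard3
    (fun l hl => hgS l (hS3S' l hl)) (fun l hl => (mem_filter.1 hl).2)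
  refine ⟨α, β, γ, hβ, lt_of_lt_of_le hcnt (card_le_card ?_)⟩
  intro l hl
  rw [mem_filter] at hl ⊢
  exact ⟨mem_range.2 (hS'L l (hS3S' l hl.1)), hl.2⟩

end Pool.Agent.H108.St2
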