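import Pool.Agent.H108.St.Lin
import Pool.Agent.H108.St2.Line

/-!
# No polynomial of small degree vanishes at large solutions: explicit number of columns
-/

set_option autoImplicit false
open Finset Polynomial

namespace Pool.Agent.H108.St2

open Pool.Agent.H108.St

/-- `F` has no zeros `(-K, -N)` with `K < N`, `K` large, which satisfy the first `L` divisibility
conditions. -/
def GoodR (L : ℕ) (F : ℤ[X][X]) : Prop :=
  ∃ K₀ : ℕ, ∀ K N : ℕ, K₀ ≤ K → K < N → Dv L K N → F.evalEval (-(K : ℤ)) (-(N : ℤ)) ≠ 0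

theorem goodR_of_col (F : ℤ[X][X]) (L l : ℕ) (hl : l < L)
    (h : ∀ i ≤ l, F.evalEval (l : ℤ) (i : ℤ) ≠ 0) : GoodR L F := by
  refine ⟨(∏ i ∈ range (l + 1), (F.evalEval (l : ℤ) (i : ℤ)).natAbs) + 1, ?_⟩
  intro K N hK hKN hD hF
  have h1 := hD.col hl
  have h2 : ∏ i ∈ range (l + 1), Nat.gcd (K + l) (N + i) ∣
      ∏ i ∈ range (l + 1), (F.evalEval (l : ℤ) (i : ℤ)).natAbs := by
    apply prod_dvd_prod_of_dvd
    intro i _
    have h3 : ((Nat.gcd (K + l) (N + i) : ℕ) : ℤ) ∣
        F.evalEval (l : ℤ) (i : ℤ) - F.evalEval (-(K : ℤ)) (-(N : ℤ)) := by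
      apply evalEval_congr
      · have : ((Nat.gcd (K + l) (N + i) : ℕ) : ℤ) ∣ ((K + l : ℕ) : ℤ) :=
          Int.natCast_dvd_natCast.2 (Nat.gcd_dvd_left _ _)
        have e : (l : ℤ) - -(K : ℤ) = ((K + l : ℕ) : ℤ) := by push_cast; ring
        rw [e]; exact this
      · have : ((Nat.gcd (K + l) (N + i) : ℕ) : ℤ) ∣ ((N + i : ℕ) : ℤ) :=
          Int.natCast_dvd_natCast.2 (Nat.gcd_dvd_right _ _)
        have e : (i : ℤ) - -(N : ℤ) = ((N + i : ℕ) : ℤ) := by push_cast; ring
        rw [e]; exact this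
    rw [hF, sub_zero] at h3
    exact Int.natCast_dvd.1 h3
  have h3 : 0 < ∏ i ∈ range (l + 1), (F.evalEval (l : ℤ) (i : ℤ)).natAbs := by
    apply prod_pos
    intro i hi
    exact Int.natAbs_pos.2 (h i (Nat.lt_succ_iff.1 (mem_range.1 hi)))
  have h4 := Nat.le_of_dvd h3 (h1.trans h2)
  omega

/-- The coefficients as a function. -/
theorem evalEval_eq_val (F : ℤ[X][X]) (D e : ℕ) (hD : ∀ k, (F.coeff k).natDegree ≤ D)
    (he : F.natDegree ≤ e) (x y : ℤ) :
    F.evalEval x y = St.val (fun t : Bt D e => (F.coeff (t.2 : ℕ)).coeff (t.1 : ℕ)) x y := by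
  unfold St.val
  rw [Fintype.sum_prod_type, Finset.sum_comm]
  rw [evalEval, eval_eq_sum_range' (Nat.lt_succ_of_le he), eval_finsetSum, Finset.sum_range]
  apply Finset.sum_congr rfl
  intro b _
  rw [eval_mul, eval_pow, eval_C, eval_eq_sum_range' (Nat.lt_succ_of_le (hD _)), Finset.sum_mul,
    Finset.sum_range]

/-- The degrees in the first variable of a quotient by a linear polynomial. -/
theorem xdeg_quot (F1 : ℤ[X][X]) (β : ℤ) (hβ : β ≠ 0) (g : ℤ[X]) (hg : g.natDegree ≤ 1) (D : ℕ)
    (h : ∀ k, (((C (C β) * X - C g) * F1 : ℤ[X][X]).coeff k).natDegree ≤ D) :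
    ∀ k, (F1.coeff k).natDegree ≤ D := by
  classical
  by_contra hcon
  push Not at hcon
  obtain ⟨k0, hk0⟩ := hcon
  -- the largest degree
  set s := range (F1.natDegree + 1) with hs
  have hk0s : k0 ∈ s := by
    rw [hs, mem_range, Nat.lt_succ_iff]
    apply le_natDegree_of_ne_zero
    intro h0
    rw [h0, natDegree_zero] at hk0
    omega
  set Mx := s.sup fun k => (F1.coeff k).natDegree with hMx
  have hle : ∀ k, (F1.coeff k).natDegree ≤ Mx := by
    intro k
    by_cases hk : k ∈ s
    · exact Finset.le_sup (f := fun k => (F1.coeff k).natDegree) hk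
    · rw [hs, mem_range, not_lt] at hk
      rw [coeff_eq_zero_of_natDegree_lt (by omega), natDegree_zero]
      exact Nat.zero_le _
  have hMD : D < Mx := lt_of_lt_of_le hk0 (hle k0)
  set t := s.filter fun k => (F1.coeff k).natDegree = Mx with ht
  have htn : t.Nonempty := by
    obtain ⟨k, hk, hk'⟩ := Finset.exists_mem_eq_sup s ⟨k0, hk0s⟩
      (fun k => (F1.coeff k).natDegree)
    exact ⟨k, by rw [ht, mem_filter]; exact ⟨hk, hk'.symm⟩⟩
  obtain ⟨k, hk, hkmax⟩ := t.exists_max_image (fun k => k) htn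
  rw [ht, mem_filter] at hk
  have hnext : (F1.coeff (k + 1)).natDegree < Mx := by
    refine lt_of_le_of_ne (hle _) ?_
    intro h1
    have h2 : k + 1 ∈ t := by
      rw [ht, mem_filter]
      refine ⟨?_, h1⟩
      rw [hs, mem_range, Nat.lt_succ_iff]
      apply le_natDegree_of_ne_zero
      intro h0
      rw [h0, natDegree_zero] at h1
      omega
    have : k + 1 ≤ k := hkmax _ h2
    omega
  have hFk0 : F1.coeff k ≠ 0 := by
    intro h0
    rw [h0, natDegree_zero] at hk
    omega
  have hCβ : (C β : ℤ[X]) ≠ 0 := C_ne_zero.2 hβ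
  rcases Nat.eq_zero_or_pos g.natDegree with hg0 | hg0
  · have h1 := h (k + 1)
    rw [sub_mul, mul_assoc, coeff_sub, coeff_C_mul, coeff_X_mul, coeff_C_mul] at h1
    have h2 : (C β * F1.coeff k).natDegree = Mx := by
      rw [natDegree_C_mul hβ]; exact hk.2
    have h3 : (g * F1.coeff (k + 1)).natDegree < (C β * F1.coeff k).natDegree := by
      rw [h2]
      refine lt_of_le_of_lt natDegree_mul_le ?_
      rw [hg0, zero_add]; exact hnext
    rw [natDegree_sub_eq_left_of_natDegree_lt h3, h2] at h1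
    omega
  · have hg1 : g.natDegree = 1 := by omega
    have hgne : g ≠ 0 := by
      rintro rfl
      simp at hg1
    have h2 : (g * F1.coeff k).natDegree = Mx + 1 := by
      rw [natDegree_mul hgne hFk0, hg1, hk.2]; ring
    have h1 := h k
    rcases Nat.eq_zero_or_pos k with hk00 | hkpos
    · subst hk00
      rw [sub_mul, mul_assoc, coeff_sub, coeff_C_mul, coeff_C_mul, mul_comm X F1,
        coeff_mul_X_zero, mul_zero, zero_sub, natDegree_neg, h2] at h1
      omega
    · obtain ⟨j, rfl⟩ : ∃ j, k = j + 1 := ⟨k - 1, by omega⟩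
      rw [sub_mul, mul_assoc, coeff_sub, coeff_C_mul, coeff_X_mul, coeff_C_mul] at h1
      have h3 : (C β * F1.coeff j).natDegree < (g * F1.coeff (j + 1)).natDegree := by
        rw [h2, natDegree_C_mul hβ]
        exact Nat.lt_succ_of_le (hle _)
      rw [natDegree_sub_eq_right_of_natDegree_lt h3, h2] at h1
      omega

/-- A linear polynomial with two points in the columns. -/
theorem goodR_line (L : ℕ) (hL : 1 ≤ L) (α β γ : ℤ) (hβ : β ≠ 0) (l i : ℕ) (hl : 1 ≤ l)
    (hi : i ≤ l) (h : α * l + β * i + γ = 0) :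
    ∃ K₀ : ℕ, ∀ K N : ℕ, K₀ ≤ K → K < N → Dv L K N → β * N + α * K - γ ≠ 0 := by
  refine ⟨γ.natAbs + 1, ?_⟩
  intro K N hK hKN hD h0
  have h1 : K ∣ N := by simpa using hD 1 hL
  obtain ⟨Z, rfl⟩ := h1
  push_cast at h0
  have h2 : (K : ℤ) ∣ γ := ⟨β * Z + α, by linarith⟩
  have h3 : γ = 0 := by
    apply Int.eq_zero_of_abs_lt_dvd h2
    rw [Int.abs_eq_natAbs]
    exact_mod_cast (by omega : γ.natAbs < K)
  subst h3
  have hK0 : (K : ℤ) ≠ 0 := by
    have : 0 < K := by omega
    exact_mod_cast this.ne'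
  have h4 : β * Z + α = 0 := by
    have h5 : (K : ℤ) * (β * Z + α) = 0 := by linarith
    exact (mul_eq_zero.1 h5).resolve_left hK0
  have h5 : (i : ℤ) = Z * l := by
    have h6 : β * ((i : ℤ) - Z * l) = 0 := by
      have : α = -(β * Z) := by linarith
      rw [this] at h
      linarith
    have := (mul_eq_zero.1 h6).resolve_left hβ
    linarith
  have h6 : i = Z * l := by exact_mod_cast h5
  have h7 : 2 ≤ Z := by
    by_contra hcon
    have : Z ≤ 1 := by omega
    have : K * Z ≤ K * 1 := Nat.mul_le_mul_left _ this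
    omega
  have h8 : 2 * l ≤ Z * l := Nat.mul_le_mul_right _ h7
  omega

theorem goodR_of_ne_zero (L D δ M B w : ℕ) (hδ : 1 ≤ δ) (hM : 2 * L ^ 2 ≤ M ^ 3)
    (hB : M + 2 * w + 1 ≤ Nat.primeCounting B)
    (hw : (D + 1) * (δ + 1) * (((D + 1) * (δ + 1) * L ^ (D + δ)) ^ ((D + 1) * (δ + 1)) * L ^ D *
      (δ * L ^ δ)) ≤ M ^ w)
    (hL : 4 * δ * (B * δ * (D + δ)) ≤ L) (hLD : 2 * D < L) :
    ∀ m ≤ δ, ∀ F : ℤ[X][X], F ≠ 0 → F.natDegree = m → (∀ k, (F.coeff k).natDegree ≤ D) →
      GoodR L F := by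
  classical
  intro m
  induction m with
  | zero =>
    intro _ F hF hn _
    obtain ⟨c, rfl⟩ : ∃ c : ℤ[X], F = C c := ⟨_, eq_C_of_natDegree_eq_zero hn⟩
    have hc : c ≠ 0 := by rintro rfl; simp at hF
    obtain ⟨L', hL'⟩ := eventually_eval_ne c hc
    refine ⟨L', fun K N hK _ _ => ?_⟩
    have : (C c : ℤ[X][X]).evalEval (-(K : ℤ)) (-(N : ℤ)) = c.eval (-(K : ℤ)) := by
      simp [evalEval]
    rw [this]
    apply hL'
    rw [abs_neg, abs_of_nonneg (by positivity)]
    exact_mod_cast hK
  | succ m ih =>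
    intro hm F hF hn hx
    by_cases hA : ∃ l < L, ∀ i : ℕ, i ≤ l → F.evalEval (l : ℤ) (i : ℤ) ≠ 0
    · obtain ⟨l, hl, h⟩ := hA
      exact goodR_of_col F L l hl h
    push Not at hA
    choose! i hi hi0 using hA
    set f : Bt D (m + 1) → ℤ := fun t => (F.coeff (t.2 : ℕ)).coeff (t.1 : ℕ) with hf
    have hval : ∀ x y : ℤ, F.evalEval x y = St.val f x y :=
      evalEval_eq_val F D (m + 1) hx hn.le
    have hf0 : f ≠ 0 := by
      intro h0
      have h1 : F.coeff (m + 1) ≠ 0 := by
        rw [← hn]; exact leadingCoeff_ne_zero.2 hF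
      have h2 := congrFun h0 (⟨(F.coeff (m + 1)).natDegree, Nat.lt_succ_of_le (hx _)⟩,
        ⟨m + 1, Nat.lt_succ_self _⟩)
      simp only [hf, Pi.zero_apply, coeff_natDegree, leadingCoeff_eq_zero] at h2
      exact h1 h2
    obtain ⟨α, β, γ, hβ, hcnt⟩ := zero_line L D δ (m + 1) M B w (D + δ) i
      (fun l hl => lt_of_le_of_lt (hi l hl) hl) hδ hm f hf0
      (fun l hl => by rw [← hval]; exact hi0 l hl) (by omega) hM hB hw hL hLD
    set g : ℤ[X] := -(C α * X + C γ) with hg
    have hgd : g.natDegree ≤ 1 := by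
      rw [hg, natDegree_neg]; exact natDegree_linear_le
    set S : ℤ[X][X] := F.scaleRoots (C β) with hS
    have hP : S.eval g = 0 := by
      by_contra hP0
      have hd : (S.eval g).natDegree ≤ D + δ := by
        rw [eval_eq_sum_range]
        apply natDegree_sum_le_of_forall_le
        intro k hk
        rw [mem_range, Nat.lt_succ_iff, hS, natDegree_scaleRoots, hn] at hk
        refine natDegree_mul_le.trans (Nat.add_le_add ?_ ?_)
        · rw [hS, coeff_scaleRoots, ← C_pow]
          refine natDegree_mul_le.trans ?_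
          rw [natDegree_C, add_zero]
          exact hx k
        · refine (natDegree_pow_le_of_le k hgd).trans ?_
          omega
      have h1 : ((range L).filter fun l : ℕ => α * (l : ℤ) + β * (i l : ℤ) + γ = 0).card ≤ D + δ := by
        calc _ = (((range L).filter fun l : ℕ => α * (l : ℤ) + β * (i l : ℤ) + γ = 0).image
              (fun l : ℕ => (l : ℤ))).card := by
              rw [card_image_of_injective _ Nat.cast_injective]
          _ ≤ (S.eval g).roots.toFinset.card := by
              apply card_le_card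
              intro x hxx
              rw [mem_image] at hxx
              obtain ⟨l, hl, rfl⟩ := hxx
              rw [mem_filter, mem_range] at hl
              rw [Multiset.mem_toFinset, mem_roots hP0, IsRoot.def]
              have h2 := scaleRoots_eval₂_mul (p := F) (evalRingHom (l : ℤ)) (i l : ℤ) (C β)
              have h3 : (evalRingHom (l : ℤ)) (C β) * (i l : ℤ) = (evalRingHom (l : ℤ)) g := by
                simp only [coe_evalRingHom, eval_C, hg, eval_neg, eval_add, eval_mul, eval_X]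
                linarith [hl.2]
              rw [h3, eval₂_at_apply, ← hS] at h2
              simp only [coe_evalRingHom, eval₂_evalRingHom, eval_C] at h2
              rw [h2, hi0 l hl.1, mul_zero]
          _ ≤ D + δ := (Multiset.toFinset_card_le _).trans ((card_roots' _).trans hd)
      omega
    set c : ℤ := β ^ (m + 1) with hc
    have hc0 : c ≠ 0 := pow_ne_zero _ hβ
    obtain ⟨F1, hF1⟩ : (C (C β) * X - C g : ℤ[X][X]) ∣ C (C c) * F := by
      have h1 := sub_dvd_eval_sub (C (C β) * X : ℤ[X][X]) (C g) (S.map C)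
      rw [← eval₂_eq_eval_map, ← eval₂_eq_eval_map, eval₂_at_apply, hP, C_0, sub_zero, hS,
        scaleRoots_eval₂_mul, eval₂_C_X, hn, ← C_pow, ← C_pow, ← hc] at h1
      exact h1
    have hCc0 : (C (C c) : ℤ[X][X]) * F ≠ 0 := mul_ne_zero (C_ne_zero.2 (C_ne_zero.2 hc0)) hF
    have hF10 : F1 ≠ 0 := by
      rintro rfl
      rw [mul_zero] at hF1
      exact hCc0 hF1
    have hΛd : (C (C β) * X - C g : ℤ[X][X]).natDegree = 1 := by
      rw [sub_eq_add_neg, ← C_neg]
      exact natDegree_linear (C_ne_zero.2 hβ)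
    have hΛ0 : (C (C β) * X - C g : ℤ[X][X]) ≠ 0 := by
      intro h; rw [h, natDegree_zero] at hΛd; omega
    have hF1d : F1.natDegree = m := by
      have h1 := congrArg natDegree hF1
      rw [natDegree_C_mul (C_ne_zero.2 hc0), natDegree_mul hΛ0 hF10, hn, hΛd] at h1
      omega
    have hF1x : ∀ k, (F1.coeff k).natDegree ≤ D := by
      apply xdeg_quot F1 β hβ g hgd D
      intro k
      rw [← hF1, coeff_C_mul, natDegree_C_mul hc0]
      exact hx k
    obtain ⟨K1, h1⟩ := ih (by omega) F1 hF10 hF1d hF1x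
    -- a point with `l ≥ 1` on the line
    obtain ⟨l, hl, hl1⟩ : ∃ l ∈ (range L).filter fun l : ℕ => α * (l : ℤ) + β * (i l : ℤ) + γ = 0,
        1 ≤ l := by
      by_contra hcon
      push Not at hcon
      have h2 : (range L).filter (fun l : ℕ => α * (l : ℤ) + β * (i l : ℤ) + γ = 0) ⊆ {0} := by
        intro l hl
        rw [mem_singleton]
        have := hcon l hl
        omega
      have h3 := card_le_card h2
      rw [card_singleton] at h3
      omega
    rw [mem_filter, mem_range] at hl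
    obtain ⟨K2, h2⟩ := goodR_line L (by omega) α β γ hβ l (i l) hl1 (hi l hl.1) hl.2
    refine ⟨K1 + K2, ?_⟩
    intro K N hK hKN hD h0
    have h3 : (C (C c) * F).evalEval (-(K : ℤ)) (-(N : ℤ)) = 0 := by
      rw [evalEval_mul, h0, mul_zero]
    rw [hF1, evalEval_mul] at h3
    rcases mul_eq_zero.1 h3 with h4 | h4
    · apply h2 K N (by omega) hKN hD
      simp only [evalEval, eval_sub, eval_mul, eval_C, eval_X, hg, eval_neg, eval_add] at h4
      linarith
    · exact h1 K N (by omega) hKN hD h4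

end Pool.Agent.H108.St2
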