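import Pool.Agent.H108.St2.Num2
import Pool.Agent.H108.St2.GoodR

/-!
# The divisibility conditions of strength `2 ^ (96 A)` have no solutions with `N ≤ K ^ A`
-/

set_option autoImplicit false
open Finset Polynomial

namespace Pool.Agent.H108.St2

open Pool.Agent.H108.St

theorem natDegree_pol_le {a b : ℕ} (f : Bt a b → ℤ) : (pol f).natDegree ≤ b := by
  unfold pol
  apply natDegree_sum_le_of_forall_le
  intro e _
  exact (natDegree_C_mul_X_pow_le _ _).trans (Nat.lt_succ_iff.1 e.2.2)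

theorem natDegree_coeff_pol_le {a b : ℕ} (f : Bt a b → ℤ) (k : ℕ) :
    ((pol f).coeff k).natDegree ≤ a := by
  unfold pol
  rw [finsetSum_coeff]
  apply natDegree_sum_le_of_forall_le
  intro e _
  rw [coeff_C_mul, coeff_X_pow]
  split_ifs
  · rw [mul_one]
    exact (natDegree_C_mul_X_pow_le _ _).trans (Nat.lt_succ_iff.1 e.1.2)
  · simp

theorem exponent_bound (A δ D : ℕ) (hA : 3 ≤ A) (hδ1 : 1 ≤ δ) (hδ : δ ≤ 2 ^ (6 * A + 4))
    (hD : D = A * δ) :
    (D + 1) * (δ + 1) ≤ 2 ^ (13 * A + 10) ∧ D + δ + 2 ≤ 2 ^ (7 * A + 6) ∧ D + 1 ≤ 2 ^ (7 * A + 5) := by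
  have hA2 : A < 2 ^ A := Nat.lt_two_pow_self
  have h1 : D ≤ 2 ^ (7 * A + 4) := by
    rw [hD]
    calc A * δ ≤ 2 ^ A * 2 ^ (6 * A + 4) := Nat.mul_le_mul hA2.le hδ
      _ = 2 ^ (7 * A + 4) := by rw [← pow_add]; congr 1; ring
  have h2 : D + 1 ≤ 2 ^ (7 * A + 5) := by
    have : 1 ≤ 2 ^ (7 * A + 4) := Nat.one_le_two_pow
    rw [show 7 * A + 5 = (7 * A + 4) + 1 by ring, pow_succ]; omega
  have h3 : δ + 1 ≤ 2 ^ (6 * A + 5) := by
    have : 1 ≤ 2 ^ (6 * A + 4) := Nat.one_le_two_pow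
    rw [show 6 * A + 5 = (6 * A + 4) + 1 by ring, pow_succ]; omega
  refine ⟨?_, ?_, h2⟩
  · calc (D + 1) * (δ + 1) ≤ 2 ^ (7 * A + 5) * 2 ^ (6 * A + 5) := Nat.mul_le_mul h2 h3
      _ = 2 ^ (13 * A + 10) := by rw [← pow_add]; congr 1; ring
  · have h4 : 2 ^ (6 * A + 5) ≤ 2 ^ (7 * A + 5) := Nat.pow_le_pow_right (by norm_num) (by omega)
    rw [show 7 * A + 6 = (7 * A + 5) + 1 by ring, pow_succ]; omega

theorem goodR_aux (A : ℕ) (hA : 3 ≤ A) (δ : ℕ) (hδ1 : 1 ≤ δ) (hδ : δ ≤ 2 ^ (6 * A + 4))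
    (F : ℤ[X][X]) (hF : F ≠ 0) (hFd : F.natDegree ≤ δ)
    (hFx : ∀ k, (F.coeff k).natDegree ≤ A * δ) : GoodR (2 ^ (96 * A - 2)) F := by
  set D := A * δ with hD
  set L := 2 ^ (96 * A - 2) with hL
  set M := 2 ^ (64 * A - 1) with hM
  set B := 2 ^ (71 * A - 1) with hB
  obtain ⟨b1, b2, b3⟩ := exponent_bound A δ D hA hδ1 hδ hD
  set s := (D + 1) * (δ + 1) with hs
  set w := 2 * (D + δ + 2 + (D + δ + 1) * s) with hw
  have hLM : L ≤ M ^ 2 := by
    rw [hL, hM, ← pow_mul]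
    exact Nat.pow_le_pow_right (by norm_num) (by omega)
  have hsL : s ≤ L := by
    refine b1.trans ?_
    rw [hL]
    exact Nat.pow_le_pow_right (by norm_num) (by omega)
  have hδL : δ ≤ L := by
    refine hδ.trans ?_
    rw [hL]
    exact Nat.pow_le_pow_right (by norm_num) (by omega)
  have hA7 : ∀ m : ℕ, m + 3 + 1 ≤ 2 ^ (7 * (m + 3) - 15) := by
    intro m
    induction m with
    | zero => norm_num
    | succ m ih =>
      rw [show 7 * (m + 1 + 3) - 15 = (7 * (m + 3) - 15) + 7 by omega, pow_add]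
      have : 1 ≤ 2 ^ (7 * (m + 3) - 15) := Nat.one_le_two_pow
      omega
  have hA8 : A + 1 ≤ 2 ^ (7 * A - 15) := by
    have := hA7 (A - 3)
    rwa [show A - 3 + 3 = A by omega] at this
  refine goodR_of_ne_zero L D δ M B w hδ1 ?_ ?_ ?_ ?_ ?_ F.natDegree hFd F hF rfl hFx
  · rw [hL, hM, ← pow_mul, ← pow_mul, ← pow_succ']
    exact Nat.pow_le_pow_right (by norm_num) (by omega)
  · have h1 := primeCounting_lower A hA
    rw [← hB] at h1
    refine le_trans ?_ h1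
    have h2 : 2 * w + 1 ≤ M := by
      have h3 : (D + δ + 1) * s ≤ 2 ^ (7 * A + 6) * 2 ^ (13 * A + 10) :=
        Nat.mul_le_mul (by omega) b1
      have h4 : 2 ^ (7 * A + 6) * 2 ^ (13 * A + 10) = 2 ^ (20 * A + 16) := by
        rw [← pow_add]; congr 1; ring
      have h5 : 2 ^ (7 * A + 6) ≤ 2 ^ (20 * A + 16) :=
        Nat.pow_le_pow_right (by norm_num) (by omega)
      have h6 : 8 * 2 ^ (20 * A + 16) + 1 ≤ M := by
        have h7 : 2 ^ (20 * A + 20) ≤ M := by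
          rw [hM]; exact Nat.pow_le_pow_right (by norm_num) (by omega)
        have h8 : 2 ^ (20 * A + 20) = 16 * 2 ^ (20 * A + 16) := by
          rw [show 20 * A + 20 = 4 + (20 * A + 16) by ring, pow_add]; norm_num
        have h9 : 1 ≤ 2 ^ (20 * A + 16) := Nat.one_le_two_pow
        omega
      omega
    have h3 : 2 ^ (64 * A) = 2 * M := by
      rw [hM, ← pow_succ']; congr 1; omega
    omega
  · have hL1 : 1 ≤ L := Nat.one_le_two_pow
    calc s * ((s * L ^ (D + δ)) ^ s * L ^ D * (δ * L ^ δ))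
        ≤ L * ((L * L ^ (D + δ)) ^ s * L ^ D * (L * L ^ δ)) := by gcongr
      _ = L ^ (D + δ + 2 + (D + δ + 1) * s) := by
          rw [← pow_succ', ← pow_mul, ← pow_succ', ← pow_add, ← pow_add, ← pow_succ']
          congr 1
          ring
      _ ≤ (M ^ 2) ^ (D + δ + 2 + (D + δ + 1) * s) := Nat.pow_le_pow_left hLM _
      _ = M ^ w := by rw [← pow_mul]
  · have h1 : D + δ = (A + 1) * δ := by rw [hD]; ring
    rw [h1]
    calc 4 * δ * (B * δ * ((A + 1) * δ)) = 4 * B * (A + 1) * δ ^ 3 := by ring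
      _ ≤ 2 ^ 2 * B * 2 ^ (7 * A - 15) * (2 ^ (6 * A + 4)) ^ 3 := by
          gcongr
          norm_num
      _ ≤ L := by
          rw [hB, hL, ← pow_mul, ← pow_add, ← pow_add, ← pow_add]
          exact Nat.pow_le_pow_right (by norm_num) (by omega)
  · have h1 : 2 * (D + 1) ≤ L := by
      calc 2 * (D + 1) ≤ 2 * 2 ^ (7 * A + 5) := Nat.mul_le_mul_left _ b3
        _ = 2 ^ (7 * A + 6) := by rw [← pow_succ']
        _ ≤ L := by rw [hL]; exact Nat.pow_le_pow_right (by norm_num) (by omega)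
    omega

theorem main_arith2 (A : ℕ) (hA : 3 ≤ A) :
    ∃ K₀ : ℕ, ∀ K N : ℕ, K₀ ≤ K → K < N → N ≤ K ^ A → ¬ Dv (2 ^ (96 * A)) K N := by
  classical
  set R := 2 ^ (6 * A) with hR
  set T := 8 * R with hT
  obtain ⟨hnum, hδ⟩ := numeric2 A R T hA hR hT
  set t := tt T R with ht
  set δ := deg A t with hδdef
  have hδ1 : 1 ≤ δ := by rw [hδdef]; unfold deg; omega
  obtain ⟨f, hf0, hf⟩ := exists_aux (fun j : Pt R => ((j.1 : ℕ) : ℤ))
    (fun j => ((j.2 : ℕ) : ℤ)) t (A * δ) δ (cond_lt A (by omega) t)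
  obtain ⟨K1, hK1⟩ := goodR_aux A hA δ hδ1 hδ (pol f) (pol_ne_zero f hf0) (natDegree_pol_le f)
    (natDegree_coeff_pol_le f)
  set P := Fintype.card (Pt R) with hP
  set cc : ℕ := (R.factorial ^ T) ^ (P ^ 2) with hcc
  set Cst : ℤ := ∑ e, |f e| with hCst
  refine ⟨K1 + 2 + cc * Cst.toNat, ?_⟩
  intro K N hK hKN hNK hD
  have hR1 : 1 ≤ R := Nat.one_le_two_pow
  have hL96 : 2 ^ (96 * A - 2) ≤ 2 ^ (96 * A) := Nat.pow_le_pow_right (by norm_num) (by omega)
  have hR96 : R ≤ 2 ^ (96 * A) := by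
    rw [hR]; exact Nat.pow_le_pow_right (by norm_num) (by omega)
  have hne : St.val f (-(K : ℤ)) (-(N : ℤ)) ≠ 0 := by
    rw [← evalEval_pol]
    exact hK1 K N (by omega) hKN (hD.mono hL96)
  set V := (St.val f (-(K : ℤ)) (-(N : ℤ))).natAbs with hV
  have hVpos : 0 < V := Int.natAbs_pos.2 hne
  have htT : ∀ j, t j ≤ T := fun j => Nat.div_le_self _ _
  have hdvd : ∀ j : Pt R, dd K N j ^ t j ∣ V := by
    intro j
    have h1 := hf j (-(K : ℤ)) (-(N : ℤ)) (dd K N j) (by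
      have : ((dd K N j : ℕ) : ℤ) ∣ ((K + (j.1 : ℕ) : ℕ) : ℤ) :=
        Int.natCast_dvd_natCast.2 (Nat.gcd_dvd_left _ _)
      have e : -(K : ℤ) - ((j.1 : ℕ) : ℤ) = -((K + (j.1 : ℕ) : ℕ) : ℤ) := by push_cast; ring
      rw [e]; exact (dvd_neg).2 this) (by
      have : ((dd K N j : ℕ) : ℤ) ∣ ((N + (j.2 : ℕ) : ℕ) : ℤ) :=
        Int.natCast_dvd_natCast.2 (Nat.gcd_dvd_right _ _)
      have e : -(N : ℤ) - ((j.2 : ℕ) : ℤ) = -((N + (j.2 : ℕ) : ℕ) : ℤ) := by push_cast; ring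
      rw [e]; exact (dvd_neg).2 this)
    rw [← Int.natCast_pow] at h1
    exact Int.natCast_dvd.1 h1
  have hprod := prod_dvd_of_gcd (univ : Finset (Pt R)) (fun j => dd K N j ^ t j) V
    (R.factorial ^ T) (fun j _ => hdvd j) (by
      intro j _ j' _ hjj'
      exact gcd_pow_dvd _ _ _ _ _ _ (htT j) (htT j') (gcd_dd K N R j j' hjj'))
  rw [card_univ, ← hP, ← hcc] at hprod
  have hccpos : 0 < cc := by positivity
  have hle := Nat.le_of_dvd (Nat.mul_pos hVpos hccpos) hprod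
  -- the lower bound
  have hlow : K ^ (∑ l ∈ range R, T / (l + 1)) ≤ ∏ j : Pt R, dd K N j ^ t j := by
    rw [Fintype.prod_sigma, ← prod_pow_eq_pow_sum, Finset.prod_range]
    apply prod_le_prod'
    intro l _
    have h1 : ∏ i : Fin ((l : ℕ) + 1), dd K N (⟨l, i⟩ : Pt R) ^ t ⟨l, i⟩ =
        (∏ i : Fin ((l : ℕ) + 1), dd K N (⟨l, i⟩ : Pt R)) ^ (T / ((l : ℕ) + 1)) := by
      rw [← prod_pow]
      rfl
    rw [h1]
    apply Nat.pow_le_pow_left
    have h2 := hD.col (show (l : ℕ) < 2 ^ (96 * A) from lt_of_lt_of_le l.2 hR96)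
    have h3 : K ≤ ∏ i ∈ range ((l : ℕ) + 1), Nat.gcd (K + l) (N + i) := by
      refine le_trans (by omega : K ≤ K + l) (Nat.le_of_dvd ?_ h2)
      apply prod_pos
      intro i _
      exact Nat.gcd_pos_of_pos_left _ (by omega)
    rw [Finset.prod_range] at h3
    exact h3
  -- the upper bound
  have hCst0 : 0 ≤ Cst := sum_nonneg fun _ _ => abs_nonneg _
  have hVle : V ≤ Cst.toNat * (K ^ (A * δ) * N ^ δ) := by
    have h1 := abs_val_le f (-(K : ℤ)) (-(N : ℤ)) (by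
      rw [abs_neg, abs_of_nonneg (by positivity)]; exact_mod_cast (by omega : 1 ≤ K)) (by
      rw [abs_neg, abs_of_nonneg (by positivity)]; exact_mod_cast (by omega : 1 ≤ N))
    rw [abs_neg, abs_neg, Nat.abs_cast, Nat.abs_cast, Int.abs_eq_natAbs, ← hV, ← hCst] at h1
    have h2 : ((Cst.toNat : ℕ) : ℤ) = Cst := Int.toNat_of_nonneg hCst0
    rw [← h2] at h1
    exact_mod_cast h1
  have hNδ : N ^ δ ≤ K ^ (A * δ) := by
    calc N ^ δ ≤ (K ^ A) ^ δ := Nat.pow_le_pow_left hNK δ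
      _ = K ^ (A * δ) := (pow_mul _ _ _).symm
  have hK0 : 0 < K := by omega
  have hfin : ∏ j : Pt R, dd K N j ^ t j < K ^ (2 * (A * δ) + 1) := by
    calc ∏ j : Pt R, dd K N j ^ t j ≤ V * cc := hle
      _ ≤ Cst.toNat * (K ^ (A * δ) * K ^ (A * δ)) * cc := by
          apply Nat.mul_le_mul_right
          refine hVle.trans ?_
          apply Nat.mul_le_mul_left
          apply Nat.mul_le_mul_left
          exact hNδ
      _ = (cc * Cst.toNat) * (K ^ (A * δ) * K ^ (A * δ)) := by ring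
      _ < K * (K ^ (A * δ) * K ^ (A * δ)) := by
          apply Nat.mul_lt_mul_of_pos_right (by omega)
          positivity
      _ = K ^ (2 * (A * δ) + 1) := by rw [pow_succ, two_mul, pow_add]; ring
  have hfin2 : K ^ (2 * (A * δ) + 1) ≤ K ^ (∑ l ∈ range R, T / (l + 1)) :=
    Nat.pow_le_pow_right hK0 hnum
  exact absurd (hlow.trans_lt hfin) (not_lt.2 hfin2)

end Pool.Agent.H108.St2
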