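import Pool.Agent.H108.St.Main

/-!
# The numerical part
-/

set_option autoImplicit false
open Finset Polynomial

namespace Pool.Agent.H108.St2

open Pool.Agent.H108.St

/-- The multiplicities. -/
def tt (T R : ℕ) (j : Pt R) : ℕ := T / ((j.1 : ℕ) + 1)

/-- Partial sums of the harmonic series. -/
noncomputable def Hs (R : ℕ) : ℝ := ∑ l ∈ range R, 1 / ((l : ℝ) + 1)

theorem Hs_eq (R : ℕ) : Hs R = ((harmonic R : ℚ) : ℝ) := by
  unfold Hs harmonic
  push_cast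
  apply Finset.sum_congr rfl
  intro l _
  rw [one_div]

theorem Hs_lower (A : ℕ) : 4 * (A : ℝ) ≤ Hs (2 ^ (6 * A)) := by
  rw [Hs_eq]
  refine le_trans ?_ (log_add_one_le_harmonic _)
  have h1 : Real.log ((2 : ℝ) ^ (6 * A)) ≤ Real.log (((2 ^ (6 * A) + 1 : ℕ)) : ℝ) := by
    apply Real.log_le_log (by positivity)
    push_cast
    linarith
  refine le_trans ?_ h1
  rw [Real.log_pow]
  push_cast
  have := Real.log_two_gt_d9
  have hA : (0 : ℝ) ≤ A := by positivity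
  nlinarith

theorem Hs_upper (A : ℕ) (hA : 3 ≤ A) : Hs (2 ^ (6 * A)) ≤ 9 / 2 * (A : ℝ) := by
  rw [Hs_eq]
  refine (harmonic_le_one_add_log _).trans ?_
  push_cast
  rw [Real.log_pow]
  push_cast
  have := Real.log_two_lt_d9
  have hA' : (3 : ℝ) ≤ A := by exact_mod_cast hA
  nlinarith

theorem two_mul_cond_tt (T R : ℕ) :
    2 * (cond (tt T R) : ℝ) = ∑ l ∈ range R, ((l : ℝ) + 1) *
      (((T / (l + 1) : ℕ) : ℝ) * (((T / (l + 1) : ℕ) : ℝ) + 1)) := by
  have h1 := two_mul_cond (tt T R)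
  have h2 : 2 * (cond (tt T R) : ℝ) = ∑ j : Pt R, (tt T R j : ℝ) * (tt T R j + 1) := by
    exact_mod_cast h1
  rw [h2, Fintype.sum_sigma, Finset.sum_range]
  apply Finset.sum_congr rfl
  intro l _
  simp only [tt]
  rw [Finset.sum_const, card_univ, Fintype.card_fin, nsmul_eq_mul]
  push_cast
  ring

theorem numeric2 (A R T : ℕ) (hA : 3 ≤ A) (hR : R = 2 ^ (6 * A)) (hT : T = 8 * R) :
    2 * (A * deg A (tt T R)) + 1 ≤ ∑ l ∈ range R, T / (l + 1) ∧
      deg A (tt T R) ≤ 2 ^ (6 * A + 4) := by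
  have hHl : 4 * (A : ℝ) ≤ Hs R := by rw [hR]; exact Hs_lower A
  have hHu : Hs R ≤ 9 / 2 * (A : ℝ) := by rw [hR]; exact Hs_upper A hA
  have hA' : (3 : ℝ) ≤ A := by exact_mod_cast hA
  have hR1 : 1 ≤ R := by rw [hR]; exact Nat.one_le_two_pow
  have hR' : (1 : ℝ) ≤ R := by exact_mod_cast hR1
  have hTr : (T : ℝ) = 8 * R := by rw [hT]; push_cast; ring
  have hT0 : (0 : ℝ) < T := by rw [hTr]; positivity
  have hfloor : ∀ l ∈ range R, ((T / (l + 1) : ℕ) : ℝ) ≤ T / ((l : ℝ) + 1) ∧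
      7 / 8 * (T / ((l : ℝ) + 1)) ≤ ((T / (l + 1) : ℕ) : ℝ) ∧ 8 ≤ T / ((l : ℝ) + 1) := by
    intro l hl
    rw [mem_range] at hl
    have hl' : (l : ℝ) + 1 ≤ R := by exact_mod_cast hl
    have hl0 : (0 : ℝ) < (l : ℝ) + 1 := by positivity
    have h8 : 8 ≤ T / ((l : ℝ) + 1) := by
      rw [le_div_iff₀ hl0, hTr]; linarith
    refine ⟨?_, ?_, h8⟩
    · have := Nat.cast_div_le (α := ℝ) (m := T) (n := l + 1)
      push_cast at this
      exact this
    · have h1 : T < (T / (l + 1) + 1) * (l + 1) := by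
        have := Nat.lt_mul_div_succ T (by omega : 0 < l + 1)
        rw [mul_comm] at this
        exact this
      have h2 : (T : ℝ) < (((T / (l + 1) : ℕ) : ℝ) + 1) * ((l : ℝ) + 1) := by exact_mod_cast h1
      have h3 : T / ((l : ℝ) + 1) < ((T / (l + 1) : ℕ) : ℝ) + 1 := by
        rw [div_lt_iff₀ hl0]; exact h2
      linarith
  -- the number of conditions
  have hcond : 2 * (cond (tt T R) : ℝ) ≤ 9 / 8 * T ^ 2 * Hs R := by
    rw [two_mul_cond_tt, Hs, mul_sum]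
    apply sum_le_sum
    intro l hl
    obtain ⟨h1, -, h3⟩ := hfloor l hl
    have hl0 : (0 : ℝ) < (l : ℝ) + 1 := by positivity
    have h4 : ((T / (l + 1) : ℕ) : ℝ) + 1 ≤ 9 / 8 * (T / ((l : ℝ) + 1)) := by linarith
    calc ((l : ℝ) + 1) * (((T / (l + 1) : ℕ) : ℝ) * (((T / (l + 1) : ℕ) : ℝ) + 1))
        ≤ ((l : ℝ) + 1) * ((T / ((l : ℝ) + 1)) * (9 / 8 * (T / ((l : ℝ) + 1)))) := by
          apply mul_le_mul_of_nonneg_left _ hl0.le
          apply mul_le_mul h1 h4 (by positivity) (by positivity)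
      _ = 9 / 8 * T ^ 2 * (1 / ((l : ℝ) + 1)) := by field_simp
  have hS : 7 / 8 * T * Hs R ≤ ((∑ l ∈ range R, T / (l + 1) : ℕ) : ℝ) := by
    rw [Hs, mul_sum]
    push_cast
    apply sum_le_sum
    intro l hl
    obtain ⟨-, h2, -⟩ := hfloor l hl
    calc 7 / 8 * T * (1 / ((l : ℝ) + 1)) = 7 / 8 * (T / ((l : ℝ) + 1)) := by ring
      _ ≤ _ := h2
  set e := Nat.sqrt (cond (tt T R) / A) with he
  have hde : deg A (tt T R) = e + 1 := rfl
  have hAe : (A : ℝ) * (e : ℝ) ^ 2 ≤ cond (tt T R) := by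
    have h1 : e * e ≤ cond (tt T R) / A := Nat.sqrt_le _
    have h2 : A * (e * e) ≤ cond (tt T R) := by
      calc A * (e * e) ≤ A * (cond (tt T R) / A) := Nat.mul_le_mul_left _ h1
        _ ≤ cond (tt T R) := Nat.mul_div_le _ _
    have h3 : ((A * (e * e) : ℕ) : ℝ) ≤ cond (tt T R) := by exact_mod_cast h2
    push_cast at h3
    nlinarith
  have hH0 : 0 < Hs R := by linarith
  have h1 : 2 * (A : ℝ) * e ≤ 3 / 4 * (T * Hs R) := by
    apply le_of_sq_le_sq _ (by positivity)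
    calc (2 * (A : ℝ) * e) ^ 2 = 2 * A * (2 * (A * (e : ℝ) ^ 2)) := by ring
      _ ≤ 2 * A * (9 / 8 * T ^ 2 * Hs R) := by
          apply mul_le_mul_of_nonneg_left _ (by positivity)
          linarith
      _ = (9 / 16) * (T ^ 2 * Hs R) * (4 * A) := by ring
      _ ≤ (9 / 16) * (T ^ 2 * Hs R) * Hs R := by
          apply mul_le_mul_of_nonneg_left hHl (by positivity)
      _ = (3 / 4 * (T * Hs R)) ^ 2 := by ring
  have h2 : (e : ℝ) ≤ 8 / 5 * T := by
    apply le_of_sq_le_sq _ (by positivity)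
    have h3 : (A : ℝ) * (e : ℝ) ^ 2 ≤ 9 / 16 * T ^ 2 * (9 / 2 * A) := by
      have h4 : 9 / 16 * (T : ℝ) ^ 2 * Hs R ≤ 9 / 16 * T ^ 2 * (9 / 2 * A) :=
        mul_le_mul_of_nonneg_left hHu (by positivity)
      linarith
    have h4 : (A : ℝ) * (e : ℝ) ^ 2 ≤ A * ((8 / 5 * T) ^ 2) := by
      have : (0 : ℝ) ≤ A * (T : ℝ) ^ 2 := by positivity
      nlinarith
    exact le_of_mul_le_mul_left h4 (by linarith)
  constructor
  · have h5 : (2 * ((A : ℝ) * (e + 1)) + 1) ≤ ((∑ l ∈ range R, T / (l + 1) : ℕ) : ℝ) := by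
      refine le_trans ?_ hS
      have h6 : 2 * (A : ℝ) + 1 ≤ 1 / 8 * (T * Hs R) := by
        have h7 : 8 * (4 * (A : ℝ)) ≤ T * Hs R := by
          have : (8 : ℝ) ≤ T := by rw [hTr]; linarith
          exact mul_le_mul this hHl (by positivity) (by positivity)
        linarith
      linarith
    rw [hde]
    exact_mod_cast h5
  · have h5 : ((e + 1 : ℕ) : ℝ) ≤ ((2 ^ (6 * A + 4) : ℕ) : ℝ) := by
      have h6 : ((2 ^ (6 * A + 4) : ℕ) : ℝ) = 16 * R := by
        rw [hR]; push_cast; ring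
      rw [h6]
      push_cast
      rw [hTr] at h2
      have hR3 : (2 : ℝ) ^ 1 ≤ R := by
        rw [hR]; push_cast
        exact pow_le_pow_right₀ (by norm_num) (by omega)
      linarith
    rw [hde]
    exact_mod_cast h5

theorem primeCounting_lower (A : ℕ) (hA : 3 ≤ A) :
    2 ^ (64 * A) ≤ Nat.primeCounting (2 ^ (71 * A - 1)) := by
  set k := 71 * A - 1 with hk
  have h1 := Chebyshev.pi_ge (2 ^ k)
  have hk1 : 1 ≤ k := by omega
  have hlog : 0 < Real.log 2 := Real.log_pos (by norm_num)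
  have h2 : Real.log (((2 ^ k : ℕ) : ℝ) + 1) ≤ (k + 1) * Real.log 2 := by
    have : (((2 ^ k : ℕ) : ℝ) + 1) ≤ 2 ^ (k + 1) := by
      push_cast
      have : (1 : ℝ) ≤ 2 ^ k := one_le_pow₀ (by norm_num)
      rw [pow_succ]; linarith
    calc Real.log (((2 ^ k : ℕ) : ℝ) + 1) ≤ Real.log ((2 : ℝ) ^ (k + 1)) :=
          Real.log_le_log (by positivity) this
      _ = (k + 1) * Real.log 2 := by rw [Real.log_pow]; push_cast; ring
  have h3 : Real.log ((2 ^ k : ℕ) : ℝ) = k * Real.log 2 := by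
    push_cast; rw [Real.log_pow]
  have hk0 : (0 : ℝ) < k := by exact_mod_cast hk1
  have h4 : ((2 : ℝ) ^ k - (k + 1)) / k ≤ Nat.primeCounting (2 ^ k) := by
    refine le_trans ?_ h1
    rw [h3, div_le_div_iff₀ hk0 (by positivity)]
    have h5 : ((2 : ℝ) ^ k - (k + 1)) * Real.log 2 ≤ ((2 ^ k : ℕ) : ℝ) * Real.log 2 -
        Real.log (((2 ^ k : ℕ) : ℝ) + 1) := by
      push_cast at h2 ⊢
      linarith
    calc ((2 : ℝ) ^ k - (k + 1)) * (k * Real.log 2) = (((2 : ℝ) ^ k - (k + 1)) * Real.log 2) * k := by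
          ring
      _ ≤ _ := mul_le_mul_of_nonneg_right h5 hk0.le
  have h5 : k * (2 ^ (64 * A) + 2) ≤ 2 ^ k := by
    have h6 : k ≤ 2 ^ (7 * A - 2) := by
      have h7 : 7 * A - 2 < 2 ^ (7 * A - 2) := Nat.lt_two_pow_self
      -- `71 A - 1 ≤ 2 ^ (7 A - 2)`
      have h8 : ∀ m : ℕ, 71 * (m + 3) - 1 ≤ 2 ^ (7 * (m + 3) - 2) := by
        intro m
        induction m with
        | zero => norm_num
        | succ m ih =>
          have e1 : 7 * (m + 1 + 3) - 2 = (7 * (m + 3) - 2) + 7 := by omega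
          rw [e1, pow_add]
          have : 1 ≤ 2 ^ (7 * (m + 3) - 2) := Nat.one_le_two_pow
          omega
      have h9 := h8 (A - 3)
      rw [show A - 3 + 3 = A by omega] at h9
      exact h9
    have h7 : 2 ^ (64 * A) + 2 ≤ 2 ^ (64 * A + 1) := by
      have : 2 ≤ 2 ^ (64 * A) := by
        calc 2 = 2 ^ 1 := by norm_num
          _ ≤ 2 ^ (64 * A) := Nat.pow_le_pow_right (by norm_num) (by omega)
      rw [pow_succ]; omega
    calc k * (2 ^ (64 * A) + 2) ≤ 2 ^ (7 * A - 2) * 2 ^ (64 * A + 1) := Nat.mul_le_mul h6 h7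
      _ = 2 ^ k := by rw [← pow_add]; congr 1; omega
  have h6 : (k : ℝ) * ((2 : ℝ) ^ (64 * A) + 2) ≤ 2 ^ k := by exact_mod_cast h5
  have h7 : ((2 : ℝ) ^ (64 * A)) ≤ Nat.primeCounting (2 ^ k) := by
    refine le_trans ?_ h4
    rw [le_div_iff₀ hk0]
    have : (1 : ℝ) ≤ k := by exact_mod_cast hk1
    nlinarith
  exact_mod_cast h7

end Pool.Agent.H108.St2
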