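import Pool.Agent.H424.SG.Main

/-!
# The uniform inequality without unspecified constants

From `Pool.Agent.H424.SG.main_arith` (helper424): if `K (K+1) ⋯ (K+j-1)` divides
`N (N+1) ⋯ (N+j-1)` for all `j ≤ s`, and `N ≥ K (K + 1)`, then
`N ≥ K ^ (min (log s) (log (log K)) / 1000)`.
-/

set_option autoImplicit false
open Finset

namespace Pool.Agent.H108.St2

open Pool.Agent.H108.St Pool.Agent.H424.SG

theorem MM_le (r a : ℕ) (ha : 1 ≤ a) (hr : 3844 * a ^ 2 + (10 * a + 1) ≤ r) :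
    MM r a ^ (r ^ 2 + 1) * r.factorial ^ (r ^ 2) ≤ r ^ (r ^ 4) := by
  have haa : a ≤ a ^ 2 := Nat.le_self_pow (by norm_num) a
  have hr1 : 3855 ≤ r := by omega
  have h1 : (a + 1) ^ 2 ≤ r := by nlinarith
  have h2 : 2 * r ≤ r ^ 2 := by nlinarith
  have h3 : MM r a ≤ r ^ ((1 + 4 * a) * ((a + 1) ^ 2 + 1)) := by
    unfold MM
    rw [pow_mul r]
    apply Nat.pow_le_pow_left
    calc (a + 1) ^ 2 * (2 * r) ^ (2 * a) ≤ r * (r ^ 2) ^ (2 * a) :=
          Nat.mul_le_mul h1 (Nat.pow_le_pow_left h2 _)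
      _ = r ^ (1 + 4 * a) := by
          rw [← pow_mul, pow_add, pow_one]
          congr 2
          ring
  have h4 : r.factorial ≤ r ^ r := Nat.factorial_le_pow r
  have h5 : (1 + 4 * a) ≤ r := by omega
  have h6 : 700 * ((a + 1) ^ 2 + 1) ≤ r := by nlinarith
  have h7 : 700 * ((1 + 4 * a) * ((a + 1) ^ 2 + 1)) ≤ r ^ 2 := by
    calc 700 * ((1 + 4 * a) * ((a + 1) ^ 2 + 1)) = (1 + 4 * a) * (700 * ((a + 1) ^ 2 + 1)) := by ring
      _ ≤ r * r := Nat.mul_le_mul h5 h6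
      _ = r ^ 2 := by ring
  have h8 : 700 * ((1 + 4 * a) * ((a + 1) ^ 2 + 1) * (r ^ 2 + 1) + r * r ^ 2) ≤ 700 * r ^ 4 := by
    have e1 : r ^ 2 + 1 ≤ 2 * r ^ 2 := by nlinarith
    have e2 : 700 * ((1 + 4 * a) * ((a + 1) ^ 2 + 1)) * (r ^ 2 + 1) ≤ r ^ 2 * (2 * r ^ 2) :=
      Nat.mul_le_mul h7 e1
    have e3 : 700 * (r * r ^ 2) ≤ r * (r * r ^ 2) := Nat.mul_le_mul_right _ (by omega)
    have e4 : 700 * ((1 + 4 * a) * ((a + 1) ^ 2 + 1) * (r ^ 2 + 1) + r * r ^ 2) =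
        700 * ((1 + 4 * a) * ((a + 1) ^ 2 + 1)) * (r ^ 2 + 1) + 700 * (r * r ^ 2) := by ring
    have e5 : r ^ 2 * (2 * r ^ 2) = 2 * r ^ 4 := by ring
    have e6 : r * (r * r ^ 2) = r ^ 4 := by ring
    rw [e4]
    omega
  have h9 : (1 + 4 * a) * ((a + 1) ^ 2 + 1) * (r ^ 2 + 1) + r * r ^ 2 ≤ r ^ 4 := by omega
  calc MM r a ^ (r ^ 2 + 1) * r.factorial ^ (r ^ 2)
      ≤ (r ^ ((1 + 4 * a) * ((a + 1) ^ 2 + 1))) ^ (r ^ 2 + 1) * (r ^ r) ^ (r ^ 2) :=
        Nat.mul_le_mul (Nat.pow_le_pow_left h3 _) (Nat.pow_le_pow_left h4 _)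
    _ = r ^ ((1 + 4 * a) * ((a + 1) ^ 2 + 1) * (r ^ 2 + 1) + r * r ^ 2) := by
        rw [← pow_mul, ← pow_mul, ← pow_add]
    _ ≤ r ^ (r ^ 4) := Nat.pow_le_pow_right (by omega) h9

theorem harm (A : ℕ) : 8 * (A : ℝ) ≤ ∑ l ∈ range (2 ^ (12 * A)), 1 / ((l : ℝ) + 1) := by
  have h1 := log_add_one_le_harmonic (2 ^ (12 * A))
  have h2 : ((harmonic (2 ^ (12 * A)) : ℚ) : ℝ) =
      ∑ l ∈ range (2 ^ (12 * A)), 1 / ((l : ℝ) + 1) := by
    unfold harmonic
    push_cast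
    apply sum_congr rfl
    intro i _
    rw [one_div]
  rw [← h2]
  refine le_trans ?_ h1
  have h3 : Real.log (((2 : ℝ)) ^ (12 * A)) ≤ Real.log ((2 ^ (12 * A) + 1 : ℕ) : ℝ) := by
    apply Real.log_le_log (by positivity)
    push_cast
    linarith
  refine le_trans ?_ h3
  rw [Real.log_pow]
  push_cast
  have h4 := Real.log_two_gt_d9
  have h5 : (0 : ℝ) ≤ A := Nat.cast_nonneg A
  nlinarith

theorem size (A : ℕ) (hA : 3 ≤ A) :
    3844 * (A * (601 * (2 ^ (12 * A)) ^ 3) ^ 2) ^ 2 + (10 * (A * (601 * (2 ^ (12 * A)) ^ 3) ^ 2) + 1)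
      ≤ 2 ^ (288 * (A - 1)) := by
  set a := A * (601 * (2 ^ (12 * A)) ^ 3) ^ 2 with ha
  have ha1 : 1 ≤ a := Nat.one_le_iff_ne_zero.2 (by positivity)
  have haa : a ≤ a ^ 2 := Nat.le_self_pow (by norm_num) a
  have h1 : a ≤ 2 ^ (19 + 73 * A) := by
    have e1 : a = A * 361201 * 2 ^ (72 * A) := by
      rw [ha, ← pow_mul, mul_pow, ← pow_mul]
      ring_nf
    have e2 : A ≤ 2 ^ A := Nat.lt_two_pow_self.le
    calc a = A * 361201 * 2 ^ (72 * A) := e1
      _ ≤ 2 ^ A * 2 ^ 19 * 2 ^ (72 * A) := by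
          apply Nat.mul_le_mul_right
          exact Nat.mul_le_mul e2 (by norm_num)
      _ = 2 ^ (19 + 73 * A) := by
          rw [← pow_add, ← pow_add]
          congr 1
          ring
  have h2 : a ^ 2 ≤ 2 ^ (38 + 146 * A) := by
    calc a ^ 2 ≤ (2 ^ (19 + 73 * A)) ^ 2 := Nat.pow_le_pow_left h1 2
      _ = 2 ^ (38 + 146 * A) := by
          rw [← pow_mul]
          congr 1
          ring
  calc 3844 * a ^ 2 + (10 * a + 1) ≤ 2 ^ 12 * a ^ 2 := by
        norm_num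
        nlinarith
    _ ≤ 2 ^ 12 * 2 ^ (38 + 146 * A) := Nat.mul_le_mul_left _ h2
    _ = 2 ^ (12 + (38 + 146 * A)) := by rw [← pow_add]
    _ ≤ 2 ^ (288 * (A - 1)) := Nat.pow_le_pow_right (by norm_num) (by omega)

/-- The uniform inequality. -/
theorem uniform {s K N : ℕ} (hK : 1 ≤ K) (hN : K * (K + 1) ≤ N) (hD : Dv s K N) :
    (K : ℝ) ^ (min (Real.log s) (Real.log (Real.log K)) / 1000) ≤ N := by
  set m := min (Real.log s) (Real.log (Real.log K)) with hm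
  have hK1 : (1 : ℝ) ≤ K := by exact_mod_cast hK
  have hNr : (K : ℝ) * (K + 1) ≤ N := by exact_mod_cast hN
  rcases le_or_gt (m / 1000) 2 with he | he
  · calc (K : ℝ) ^ (m / 1000) ≤ (K : ℝ) ^ (2 : ℝ) := Real.rpow_le_rpow_of_exponent_le hK1 he
      _ = (K : ℝ) ^ 2 := by norm_num
      _ ≤ N := by nlinarith
  set A := ⌈m / 1000⌉₊ with hA
  have he0 : 0 ≤ m / 1000 := by linarith
  have hA1 : m / 1000 ≤ A := Nat.le_ceil _
  have hA2 : (A : ℝ) < m / 1000 + 1 := Nat.ceil_lt_add_one he0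
  have hA3 : 3 ≤ A := by
    have : (2 : ℝ) < A := by linarith
    exact_mod_cast this
  -- the strength used
  set r := ⌊Real.exp (m / 5)⌋₊ with hr
  have hr1 : (r : ℝ) ≤ Real.exp (m / 5) := Nat.floor_le (Real.exp_pos _).le
  have hr5 : (r : ℝ) ^ 5 ≤ Real.exp m := by
    calc (r : ℝ) ^ 5 ≤ (Real.exp (m / 5)) ^ 5 := pow_le_pow_left₀ (Nat.cast_nonneg r) hr1 5
      _ = Real.exp m := by
          rw [← Real.exp_nat_mul]
          congr 1
          push_cast
          ring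
  have hs0 : s ≠ 0 := by
    intro h
    rw [h] at hm
    have : m ≤ 0 := by
      rw [hm]
      refine (min_le_left _ _).trans ?_
      simp
    linarith
  have hlogK : 0 < Real.log K := by
    by_contra hcon
    have h1 : Real.log K = 0 := le_antisymm (not_lt.1 hcon) (Real.log_nonneg hK1)
    have h2 : m ≤ 0 := by
      rw [hm]
      refine (min_le_right _ _).trans ?_
      rw [h1]
      simp
    linarith
  have hes : Real.exp m ≤ s := by
    have h1 : m ≤ Real.log s := min_le_left _ _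
    calc Real.exp m ≤ Real.exp (Real.log s) := Real.exp_le_exp.2 h1
      _ = s := Real.exp_log (by exact_mod_cast Nat.pos_of_ne_zero hs0)
  have heK : Real.exp m ≤ Real.log K := by
    have h1 : m ≤ Real.log (Real.log K) := min_le_right _ _
    calc Real.exp m ≤ Real.exp (Real.log (Real.log K)) := Real.exp_le_exp.2 h1
      _ = Real.log K := Real.exp_log hlogK
  have hsize := size A hA3
  set a := A * (601 * (2 ^ (12 * A)) ^ 3) ^ 2 with ha
  have ha1 : 1 ≤ a := Nat.one_le_iff_ne_zero.2 (by positivity)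
  have hrA : 2 ^ (288 * (A - 1)) ≤ r := by
    apply Nat.le_floor
    push_cast
    have h1 : Real.log ((2 : ℝ) ^ (288 * (A - 1))) ≤ m / 5 := by
      rw [Real.log_pow]
      push_cast
      rw [Nat.cast_sub (by omega)]
      push_cast
      have h2 := Real.log_two_lt_d9
      have h3 : (0 : ℝ) ≤ (A : ℝ) - 1 := by
        have : (3 : ℝ) ≤ A := by exact_mod_cast hA3
        linarith
      nlinarith
    calc (2 : ℝ) ^ (288 * (A - 1)) = Real.exp (Real.log ((2 : ℝ) ^ (288 * (A - 1)))) :=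
          (Real.exp_log (by positivity)).symm
      _ ≤ Real.exp (m / 5) := Real.exp_le_exp.2 h1
  have hra : 3844 * a ^ 2 + (10 * a + 1) ≤ r := hsize.trans hrA
  have hr3855 : 3855 ≤ r := by
    have haa : a ≤ a ^ 2 := Nat.le_self_pow (by norm_num) a
    omega
  have hrr : (3855 : ℝ) ≤ r := by exact_mod_cast hr3855
  have hrs : r ≤ s := by
    have h1 : (r : ℝ) ≤ (r : ℝ) ^ 5 := by
      have := pow_le_pow_right₀ (by linarith : (1 : ℝ) ≤ r) (show 1 ≤ 5 by norm_num)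
      simpa using this
    have h2 : (r : ℝ) ≤ s := h1.trans (hr5.trans hes)
    exact_mod_cast h2
  have hKbig : r ^ (r ^ 4) < K := by
    have h1 : ((r ^ (r ^ 4) : ℕ) : ℝ) < K := by
      push_cast
      have h2 : Real.log ((r : ℝ) ^ (r ^ 4)) < Real.log K := by
        rw [Real.log_pow]
        push_cast
        have h3 : Real.log (r : ℝ) ≤ (r : ℝ) - 1 := Real.log_le_sub_one_of_pos (by linarith)
        have h4 : (0 : ℝ) < (r : ℝ) ^ 4 := by positivity
        calc (r : ℝ) ^ 4 * Real.log r ≤ (r : ℝ) ^ 4 * ((r : ℝ) - 1) :=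
              mul_le_mul_of_nonneg_left h3 h4.le
          _ < (r : ℝ) ^ 5 := by nlinarith
          _ ≤ Real.log K := hr5.trans heK
      exact (Real.log_lt_log_iff (by positivity) (by linarith)).1 h2
    exact_mod_cast h1
  have hMM := MM_le r a ha1 hra
  have hr2K : r + 2 ≤ K := by
    have h1 : r ^ 2 ≤ r ^ (r ^ 4) := by
      apply Nat.pow_le_pow_right (by omega)
      calc 2 ≤ r := by omega
        _ ≤ r ^ 4 := Nat.le_self_pow (by norm_num) r
    nlinarith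
  have hcon : ¬ N ≤ K ^ A := by
    intro hNK
    exact main_arith A (2 ^ (12 * A)) a r K N (by omega) (harm A) ha hra
      (lt_of_le_of_lt hMM hKbig) hr2K (by nlinarith) hNK (hD.mono hrs)
  have h1 : K ^ A < N := not_le.1 hcon
  calc (K : ℝ) ^ (m / 1000) ≤ (K : ℝ) ^ (A : ℝ) := Real.rpow_le_rpow_of_exponent_le hK1 hA1
    _ = (K : ℝ) ^ A := Real.rpow_natCast _ _
    _ ≤ N := by exact_mod_cast h1.le

end Pool.Agent.H108.St2
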